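import Mathlib

/-!
# Composita of degree prime to `l`
-/

set_option autoImplicit false

namespace ZC

universe u

open scoped TensorProduct

/-- A finite algebra over a field whose dimension is prime to `l` has a residue field whose degree
is prime to `l`. -/
theorem exists_maximal_primeTo {L A : Type u} [Field L] [CommRing A] [Algebra L A]
    [Module.Finite L A] {l : ℕ} : ∀ (N : ℕ) (M : Type u) [AddCommGroup M] [Module A M]
    [Module L M] [IsScalarTower L A M] [Module.Finite L M], Module.finrank L M = N →
    ¬ l ∣ Module.finrank L M → ∃ I : Ideal A, I.IsMaximal ∧ ¬ l ∣ Module.finrank L (A ⧸ I) := by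
  intro N
  induction N using Nat.strong_induction_on with
  | _ N ih =>
    intro M _ _ _ _ _ hN hl
    have hart : IsArtinianRing A := IsArtinianRing.of_finite L A
    have hMA : Module.Finite A M := Module.Finite.of_restrictScalars_finite L A M
    have hnt : Nontrivial M := by
      by_contra hcon
      rw [not_nontrivial_iff_subsingleton] at hcon
      apply hl
      rw [Module.finrank_zero_of_subsingleton]
      exact dvd_zero l
    obtain ⟨S, hS⟩ := IsAtomic.exists_atom (Submodule A M)
    have hsimple : IsSimpleModule A S := isSimpleModule_iff_isAtom.2 hS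
    obtain ⟨I, hI, ⟨e⟩⟩ := isSimpleModule_iff_quot_maximal.1 hsimple
    have h1 : Module.finrank L S = Module.finrank L (A ⧸ I) :=
      (e.restrictScalars L).finrank_eq
    by_cases h2 : l ∣ Module.finrank L (A ⧸ I)
    · have h3 := Submodule.finrank_quotient_add_finrank (S.restrictScalars L)
      have h4 : Module.finrank L (M ⧸ S.restrictScalars L) = Module.finrank L (M ⧸ S) :=
        (Submodule.Quotient.restrictScalarsEquiv L S).finrank_eq
      have h5 : Module.finrank L (S.restrictScalars L) = Module.finrank L S := rfl
      rw [h4, h5, h1] at h3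
      have hfin : Module.Finite L (M ⧸ S) :=
        Module.Finite.of_surjective (S.mkQ.restrictScalars L) (Submodule.mkQ_surjective S)
      have hpos : 0 < Module.finrank L S := by
        have : Nontrivial S := hsimple.nontrivial
        have hf : Module.Finite L S :=
          (inferInstance : Module.Finite L (S.restrictScalars L))
        exact Module.finrank_pos
      refine ih (Module.finrank L (M ⧸ S)) ?_ (M ⧸ S) rfl fun h6 => hl ?_
      · omega
      · rw [← h3]
        exact dvd_add h6 h2
    · exact ⟨I, hI, h2⟩

/-- **A compositum of degree prime to `l`.** -/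
theorem exists_compositum_primeTo {K L M : Type u} [Field K] [Field L] [Field M] [Algebra K L]
    [Algebra K M] [FiniteDimensional K M] {l : ℕ} (h : ¬ l ∣ Module.finrank K M) :
    ∃ (N : Type u) (_ : Field N) (_ : Algebra L N) (_ : Algebra M N),
      (∀ a : K, algebraMap L N (algebraMap K L a) = algebraMap M N (algebraMap K M a)) ∧
      FiniteDimensional L N ∧ ¬ l ∣ Module.finrank L N := by
  have h1 : ¬ l ∣ Module.finrank L (L ⊗[K] M) := by
    rw [Module.finrank_baseChange]
    exact h
  obtain ⟨I, hI, h2⟩ := exists_maximal_primeTo (L := L) (A := L ⊗[K] M) _ (L ⊗[K] M) rfl h1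
  let iF : Field ((L ⊗[K] M) ⧸ I) := Ideal.Quotient.field I
  let f : M →+* (L ⊗[K] M) ⧸ I := (Ideal.Quotient.mk I).comp
    (Algebra.TensorProduct.includeRight : M →ₐ[K] L ⊗[K] M).toRingHom
  refine ⟨(L ⊗[K] M) ⧸ I, iF, inferInstance, f.toAlgebra, fun a => ?_, ?_, h2⟩
  · change Ideal.Quotient.mk I (algebraMap K L a ⊗ₜ[K] (1 : M)) =
      Ideal.Quotient.mk I ((1 : L) ⊗ₜ[K] algebraMap K M a)
    congr 1
    rw [Algebra.algebraMap_eq_smul_one, Algebra.algebraMap_eq_smul_one, TensorProduct.smul_tmul]
  · exact Module.Finite.of_surjective (I.mkQ.restrictScalars L) (Submodule.mkQ_surjective I)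

end ZC
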