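import Pool.Agent.Helper72.HY.Mod

/-!
# From the powers of single primes to all admissible indices
-/

set_option autoImplicit false

open MvPolynomial ZC

namespace ZF

universe u

theorem SameMod.of_dvd {G : Type u} [AddCommGroup G] {m m' : ℕ} (h : m ∣ m') {a b : G}
    (hab : SameMod m' a b) : SameMod m a b := by
  obtain ⟨q, rfl⟩ := h
  obtain ⟨g, hg⟩ := hab
  exact ⟨q • g, by rw [hg, mul_smul]⟩

theorem SameMod.trans {G : Type u} [AddCommGroup G] {m : ℕ} {a b c : G}
    (hab : SameMod m a b) (hbc : SameMod m b c) : SameMod m a c := by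
  obtain ⟨g, hg⟩ := hab
  obtain ⟨g', hg'⟩ := hbc
  exact ⟨g + g', by rw [smul_add, ← hg, ← hg', sub_add_sub_cancel]⟩

theorem SameMod.symm {G : Type u} [AddCommGroup G] {m : ℕ} {a b : G}
    (hab : SameMod m a b) : SameMod m b a := by
  obtain ⟨g, hg⟩ := hab
  exact ⟨-g, by rw [smul_neg, ← hg, neg_sub]⟩

/-- Classes which agree modulo the prime powers in `m` agree modulo `m`. -/
theorem sameMod_of_primes {G : Type u} [AddCommGroup G] {m : ℕ} (hm : 0 < m) {a b : G}
    (H : ∀ l : ℕ, l.Prime → l ∣ m → SameMod (l ^ m.factorization l) a b) : SameMod m a b := by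
  let T : AddSubgroup G := (nsmulAddMonoidHom m : G →+ G).range
  have h1 : (1 : ℤ) ∈ T.comap (zmultiplesHom G (a - b)) := by
    refine one_mem_of_primes _ fun l hl => ?_
    by_cases hlm : l ∣ m
    · obtain ⟨g, hg⟩ := H l hl hlm
      refine ⟨((m / l ^ m.factorization l : ℕ) : ℤ), ⟨g, ?_⟩, fun h => ?_⟩
      · change m • g = ((m / l ^ m.factorization l : ℕ) : ℤ) • (a - b)
        rw [natCast_zsmul, hg, smul_smul, Nat.div_mul_cancel (Nat.ordProj_dvd m l)]
      · exact Nat.not_dvd_ordCompl hl hm.ne' (Int.natCast_dvd_natCast.1 h)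
    · refine ⟨m, ⟨a - b, ?_⟩, fun h => hlm (Int.natCast_dvd_natCast.1 h)⟩
      change m • (a - b) = (m : ℤ) • (a - b)
      rw [natCast_zsmul]
  obtain ⟨g, hg⟩ := h1
  change m • g = (1 : ℤ) • (a - b) at hg
  rw [one_smul] at hg
  exact ⟨g, hg.symm⟩

/-- Chinese remainders: a combination of cycles with given residues. -/
theorem exists_crt {G : Type u} [AddCommGroup G] (Z : ℕ → G) {m : ℕ} (hm : 0 < m) :
    ∃ W : G, ∀ l : ℕ, l.Prime → l ∣ m → SameMod (l ^ m.factorization l) W (Z l) := by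
  classical
  have key : ∀ l : ℕ, l.Prime → ∃ e a b : ℤ, e = a * (m / l ^ m.factorization l : ℕ) ∧
      e = 1 + b * (l ^ m.factorization l : ℕ) := by
    intro l hl
    have h1 : Nat.Coprime (l ^ m.factorization l) (m / l ^ m.factorization l) :=
      (Nat.coprime_ordCompl hl hm.ne').pow_left _
    obtain ⟨u, w, huw⟩ := Nat.isCoprime_iff_coprime.2 h1
    exact ⟨w * (m / l ^ m.factorization l : ℕ), w, -u, rfl, by linear_combination huw⟩
  let e : ℕ → ℤ := fun l => if h : l.Prime then (key l h).choose else 0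
  have he : ∀ l : ℕ, l.Prime → ∃ a b : ℤ, e l = a * (m / l ^ m.factorization l : ℕ) ∧
      e l = 1 + b * (l ^ m.factorization l : ℕ) := by
    intro l hl
    have : e l = (key l hl).choose := dif_pos hl
    rw [this]
    exact (key l hl).choose_spec
  refine ⟨∑ l ∈ m.primeFactors, e l • Z l, fun l hl hlm => ?_⟩
  have hmem : l ∈ m.primeFactors := Nat.mem_primeFactors.2 ⟨hl, hlm, hm.ne'⟩
  have hsub : ∑ l' ∈ m.primeFactors, e l' • Z l' - Z l =
      (e l - 1) • Z l + ∑ l' ∈ m.primeFactors.erase l, e l' • Z l' := by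
    rw [← Finset.add_sum_erase _ _ hmem, sub_smul, one_smul]
    abel
  let T : AddSubgroup G := (nsmulAddMonoidHom (l ^ m.factorization l) : G →+ G).range
  have hT : ∑ l' ∈ m.primeFactors, e l' • Z l' - Z l ∈ T := by
    rw [hsub]
    have hsm : ∀ (c : ℤ) (x : G), ((l ^ m.factorization l : ℕ) : ℤ) ∣ c → c • x ∈ T := by
      rintro c x ⟨q, rfl⟩
      refine ⟨q • x, ?_⟩
      change (l ^ m.factorization l) • q • x = _
      rw [mul_smul, natCast_zsmul]
    refine add_mem (hsm _ _ ?_) (sum_mem fun l' hl' => hsm _ _ ?_)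
    · obtain ⟨a, b, -, h2⟩ := he l hl
      exact ⟨b, by rw [h2]; ring⟩
    · obtain ⟨hne, hmem'⟩ := Finset.mem_erase.1 hl'
      have hl'p : l'.Prime := (Nat.mem_primeFactors.1 hmem').1
      obtain ⟨a, b, h1, -⟩ := he l' hl'p
      rw [h1]
      refine Dvd.dvd.mul_left (Int.natCast_dvd_natCast.2 ?_) a
      have h3 : l ^ m.factorization l ∣
          l' ^ m.factorization l' * (m / l' ^ m.factorization l') := by
        rw [Nat.mul_div_cancel' (Nat.ordProj_dvd m l')]
        exact Nat.ordProj_dvd m l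
      refine Nat.Coprime.dvd_of_dvd_mul_left ?_ h3
      exact Nat.Coprime.pow _ _ ((Nat.coprime_primes hl hl'p).2 (Ne.symm hne))
  obtain ⟨g, hg⟩ := hT
  exact ⟨g, hg.symm⟩

section

variable {F k : Type u} [Field F] [Field k] [Algebra F k] {V ι R : Type} [Finite V] {p : V → ι}
  {X : MVar k p R}

theorem adm_pow (l a : ℕ) (hl : l.Prime) : Adm (fun l' => l' = l) (l ^ a) := fun _ hl' h =>
  (Nat.prime_dvd_prime_iff_eq hl' hl).1 (hl'.dvd_of_dvd_pow h)

/-- A compatible family which is global at each prime is global. -/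
theorem globalOn_of_primes {Q : ℕ → Prop} (z : LocFam F X) (hz : z.CompatOn Q)
    (H : ∀ l : ℕ, l.Prime → Q l → z.GlobalOn fun l' => l' = l) : z.GlobalOn Q := by
  classical
  let Z : ℕ → ℕ → ClosedPoint X →₀ ℤ := fun l =>
    if h : l.Prime ∧ Q l then (H l h.1 h.2).choose else 0
  have hZ : ∀ l : ℕ, l.Prime → Q l →
      (∀ m m' : ℕ, 0 < m → 0 < m' → m ∣ m' → Adm (fun l' => l' = l) m' →
        SameMod m (CH0.mk X (Z l m')) (CH0.mk X (Z l m))) ∧
      ∀ (v : Place F k) (m : ℕ), 0 < m → Adm (fun l' => l' = l) m →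
        SameMod m (bcCl X v.Completion (Z l m)) (z v m) := by
    intro l hl hQ
    have : Z l = (H l hl hQ).choose := dif_pos ⟨hl, hQ⟩
    rw [this]
    exact (H l hl hQ).choose_spec
  have key : ∀ m : ℕ, 0 < m → ∃ W : ClosedPoint X →₀ ℤ, ∀ l : ℕ, l.Prime → l ∣ m →
      SameMod (l ^ m.factorization l) W (Z l (l ^ m.factorization l)) := fun m hm =>
    exists_crt (fun l => Z l (l ^ m.factorization l)) hm
  let W : ℕ → ClosedPoint X →₀ ℤ := fun m => if h : 0 < m then (key m h).choose else 0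
  have hW : ∀ m : ℕ, 0 < m → ∀ l : ℕ, l.Prime → l ∣ m →
      SameMod (l ^ m.factorization l) (W m) (Z l (l ^ m.factorization l)) := by
    intro m hm
    have : W m = (key m hm).choose := dif_pos hm
    rw [this]
    exact (key m hm).choose_spec
  have hmap : ∀ {G H : Type u} [AddCommGroup G] [AddCommGroup H] (φ : G →+ H) {m : ℕ} {a b : G},
      SameMod m a b → SameMod m (φ a) (φ b) := by
    intro G H _ _ φ m a b h
    obtain ⟨g, hg⟩ := h
    exact ⟨φ g, by rw [← map_sub, hg, map_nsmul]⟩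
  refine ⟨W, fun m m' hm hm' hmm hQ => ?_, fun v m hm hQ => ?_⟩
  · refine sameMod_of_primes hm fun l hl hlm => ?_
    have hQl : Q l := hQ l hl (hlm.trans hmm)
    have hle : m.factorization l ≤ m'.factorization l :=
      (Nat.factorization_le_iff_dvd hm.ne' hm'.ne').2 hmm l
    have h1 := (hmap (CH0.mk X) (hW m' hm' l hl (hlm.trans hmm))).of_dvd (pow_dvd_pow l hle)
    have h2 := (hZ l hl hQl).1 (l ^ m.factorization l) (l ^ m'.factorization l)
      (pow_pos hl.pos _) (pow_pos hl.pos _) (pow_dvd_pow l hle) (adm_pow l _ hl)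
    have h3 := hmap (CH0.mk X) (hW m hm l hl hlm)
    exact (h1.trans h2).trans h3.symm
  · refine sameMod_of_primes hm fun l hl hlm => ?_
    have hQl : Q l := hQ l hl hlm
    have h1 := hmap ((CH0.mk (X.bc v.Completion)).comp (bcZ X v.Completion)) (hW m hm l hl hlm)
    have h2 := (hZ l hl hQl).2 v (l ^ m.factorization l) (pow_pos hl.pos _) (adm_pow l _ hl)
    have h3 := hz v (l ^ m.factorization l) m (pow_pos hl.pos _) hm (Nat.ordProj_dvd m l) hQ
    exact (h1.trans h2).trans h3.symm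

theorem LocFam.CompatOn.mono {Q Q' : ℕ → Prop} (h : ∀ l : ℕ, l.Prime → Q' l → Q l)
    {z : LocFam F X} (hz : z.CompatOn Q) : z.CompatOn Q' :=
  fun v m m' hm hm' hmm hQ => hz v m m' hm hm' hmm fun l hl hlm => h l hl (hQ l hl hlm)

theorem LocFam.OrthOn.mono {Q Q' : ℕ → Prop} (h : ∀ l : ℕ, l.Prime → Q' l → Q l)
    {z : LocFam F X} (hz : z.OrthOn Q) : z.OrthOn Q' :=
  fun f m hf hm hQ => hz f m hf hm fun l hl hlm => h l hl (hQ l hl hlm)

end

end ZF
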