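import Pool.Agent.Helper72.HY.Hyp
import Pool.Agent.Helper89.BD.Curve

/-!
# Cubic hypersurfaces which contain a line
-/

set_option autoImplicit false

open MvPolynomial

namespace ZC

universe u

open Pool.Agent.Helper91.ZC

/-- A polynomial of degree prime to `l` has a root over an extension of degree prime to `l`. -/
theorem exists_root_primeTo {E : Type u} [Field E] {l : ℕ} (hl : l.Prime) (P : Polynomial E)
    (hP : P ≠ 0) (h : ¬ l ∣ P.natDegree) :
    ∃ (M : Type u) (_ : Field M) (_ : Algebra E M), FiniteDimensional E M ∧
      (Module.finrank E M).Coprime l ∧ ∃ θ : M, Polynomial.aeval θ P = 0 := by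
  obtain ⟨Q, hQ, hQP, hQl⟩ := exists_factor_primeTo P hP h
  have hfact : Fact (Irreducible Q) := ⟨hQ⟩
  have hfin : FiniteDimensional E (AdjoinRoot Q) := (AdjoinRoot.powerBasis hQ.ne_zero).finite
  have hrank : Module.finrank E (AdjoinRoot Q) = Q.natDegree := by
    rw [(AdjoinRoot.powerBasis hQ.ne_zero).finrank, AdjoinRoot.powerBasis_dim]
  refine ⟨AdjoinRoot Q, inferInstance, inferInstance, hfin, ?_, AdjoinRoot.root Q, ?_⟩
  · rw [hrank, Nat.coprime_comm]
    exact (Nat.Prime.coprime_iff_not_dvd hl).2 hQl
  · obtain ⟨R, hR⟩ := hQP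
    rw [hR, map_mul, AdjoinRoot.aeval_eq, AdjoinRoot.mk_self, zero_mul]

/-- Linear forms. -/
theorem aeval_one_comb {K : Type*} [Field K] {n : ℕ} {g : MvPolynomial (Fin n) K}
    (hg : g.IsHomogeneous 1) (s t : Fin n → K) {R : Type*} [CommRing R] [Algebra K R] (a b : R) :
    aeval (fun i => a * algebraMap K R (s i) + b * algebraMap K R (t i)) g =
      algebraMap K R (eval s g) * a + algebraMap K R (eval t g) * b := by
  obtain ⟨-, f2, f3⟩ := onLine_facts hg s t
  rw [aeval_binary hg, Finset.sum_range_succ, Finset.sum_range_one, f2, f3]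
  ring

/-- Quadratic forms. -/
theorem aeval_two_comb {K : Type*} [Field K] {n : ℕ} {g : MvPolynomial (Fin n) K}
    (hg : g.IsHomogeneous 2) (s t : Fin n → K) : ∃ u : K, ∀ {R : Type*} [CommRing R]
    [Algebra K R] (a b : R),
    aeval (fun i => a * algebraMap K R (s i) + b * algebraMap K R (t i)) g =
      algebraMap K R (eval s g) * a ^ 2 + algebraMap K R u * a * b +
        algebraMap K R (eval t g) * b ^ 2 := by
  obtain ⟨-, f2, f3⟩ := onLine_facts hg s t
  refine ⟨(onLine s t g).coeff 1, fun {R} _ _ a b => ?_⟩
  rw [aeval_binary hg, Finset.sum_range_succ, Finset.sum_range_succ, Finset.sum_range_one, f2, f3]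
  ring

section

variable {K : Type u} [Field K] {n : ℕ}

theorem isPt_ext (X : ProjVar K n 1) {M N : Type u} [Field M] [Field N] [Algebra K M]
    [Algebra K N] [Algebra M N] [IsScalarTower K M N] {z : Fin (n + 1) → M} (hz : X.IsPt z) :
    X.IsPt fun i => algebraMap M N (z i) := by
  refine ⟨fun h => hz.1 (funext fun i => ?_), fun i => ?_⟩
  · have h1 := congrFun h i
    simpa using h1
  · have h1 := MvPolynomial.aeval_algebraMap_apply N z (X.form i)
    rw [hz.2 i, map_zero] at h1
    exact h1

/-- The linear and the quadratic form of a cubic at a point. -/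
theorem cubic_line {X : ProjVar K n 1} (hd : X.d 0 = 3) {x : Fin (n + 1) → K} (hx : X.IsPt x)
    {M : Type u} [Field M] [Algebra K M] (z : Fin (n + 1) → M) (hz : X.IsPt z) (a b : M) :
    aeval (fun i => a * algebraMap K M (x i) + b * z i) (X.form 0) =
      aeval z ((genLine x (X.form 0)).coeff 1) * a ^ 2 * b +
        aeval z ((genLine x (X.form 0)).coeff 2) * a * b ^ 2 := by
  have hg : (MvPolynomial.map (algebraMap K M) (X.form 0)).IsHomogeneous 3 := by
    rw [← hd]
    exact (X.hom 0).map _
  have h1 := aeval_binary hg (fun i => algebraMap K M (x i)) z a b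
  rw [aeval_map_algebraMap] at h1
  obtain ⟨f1, f2, f3⟩ := onLine_facts hg (fun i => algebraMap K M (x i)) z
  have e0 : eval (fun i => algebraMap K M (x i)) (MvPolynomial.map (algebraMap K M) (X.form 0)) =
      0 := by
    rw [eval_map, ← aeval_def]
    exact (isPt_algebraMap X x hx).2 0
  have e1 : eval z (MvPolynomial.map (algebraMap K M) (X.form 0)) = 0 := by
    rw [eval_map, ← aeval_def]
    exact hz.2 0
  rw [aeval_genLine_coeff, aeval_genLine_coeff]
  simp only [Algebra.algebraMap_self, RingHom.id_apply] at h1
  rw [h1, Finset.sum_range_succ, Finset.sum_range_succ, Finset.sum_range_succ,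
    Finset.sum_range_one, f2, f3, e0, e1]
  ring

/-- If both forms vanish the line lies in the cubic. -/
theorem cubic_equiv {X : ProjVar K n 1} (hd : X.d 0 = 3) {x : Fin (n + 1) → K} (hx : X.IsPt x)
    {M : Type u} [Field M] [Algebra K M] [FiniteDimensional K M] (z : Fin (n + 1) → M)
    (hz : X.IsPt z) (h1 : aeval z ((genLine x (X.form 0)).coeff 1) = 0)
    (h2 : aeval z ((genLine x (X.form 0)).coeff 2) = 0) :
    (Module.finrank K M : ℤ) • ptCycle X x hx - ptCycle X z hz ∈ ratEquiv X := by
  classical
  have hx' := isPt_algebraMap X (L := M) x hx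
  rw [← ptCycle_tower X x hx hx']
  by_cases hp : ∃ c : M, ∀ i, z i = c * algebraMap K M (x i)
  · obtain ⟨c, hc⟩ := hp
    have hc0 : c ≠ 0 := by
      rintro rfl
      exact hz.1 (funext fun i => by rw [hc i, zero_mul]; rfl)
    rw [ptCycle_congr X (AlgEquiv.refl : M ≃ₐ[K] M) c hc0 hx' hz hc, sub_self]
    exact zero_mem _
  · refine line_equiv X _ z hx' hz ⟨fun h0 => ?_, fun i => ?_⟩
    · obtain ⟨i, hi⟩ := Function.ne_iff.1 hx'.1
      apply hi
      have h3 := congrFun h0 i
      have h4 : algebraMap (Polynomial M) (RatFunc M)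
          (Polynomial.C (algebraMap K M (x i)) + Polynomial.X * Polynomial.C (z i)) = 0 := by
        rw [map_add, map_mul, RatFunc.algebraMap_C, RatFunc.algebraMap_C, RatFunc.algebraMap_X]
        exact h3
      rw [map_eq_zero_iff _ (RatFunc.algebraMap_injective M)] at h4
      have h5 := congrArg (fun p => Polynomial.coeff p 0) h4
      simpa using h5
    · rw [Subsingleton.elim i 0]
      have hzE : X.IsPt (fun i => algebraMap M (RatFunc M) (z i)) :=
        isPt_ext X hz
      have h3 := cubic_line hd hx (M := RatFunc M) _ hzE 1 RatFunc.X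
      have h4 : ∀ j, aeval (fun i => algebraMap M (RatFunc M) (z i))
          ((genLine x (X.form 0)).coeff j) =
          algebraMap M (RatFunc M) (aeval z ((genLine x (X.form 0)).coeff j)) := fun j =>
        MvPolynomial.aeval_algebraMap_apply _ _ _
      rw [h4, h4, h1, h2, map_zero, zero_mul, zero_mul, zero_mul, zero_mul, add_zero] at h3
      rw [← h3]
      congr 1
      congr 1
      funext i
      rw [one_mul, IsScalarTower.algebraMap_apply K M (RatFunc M)]
      rfl

/-- **A point of a cubic and a point of a line on the cubic.** -/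
theorem cubic_main {l : ℕ} (hl : l.Prime) (hl2 : l ≠ 2) {X : ProjVar K n 1} (hd : X.d 0 = 3)
    {x : Fin (n + 1) → K} (hx : X.IsPt x) {s s' : Fin (n + 1) → K}
    (hs : ∀ (M : Type u) [Field M] [Algebra K M] (a b : M), (a ≠ 0 ∨ b ≠ 0) →
      X.IsPt fun i => a * algebraMap K M (s i) + b * algebraMap K M (s' i))
    (hsp : X.IsPt s) :
    ∃ m : ℕ, m.Coprime l ∧ (m : ℤ) • (ptCycle X x hx - ptCycle X s hsp) ∈ ratEquiv X := by
  classical
  set φ := (genLine x (X.form 0)).coeff 1 with hφ
  set ψ := (genLine x (X.form 0)).coeff 2 with hψ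
  have hφ1 : φ.IsHomogeneous 1 := graded_genLine x (X.form 0) 1
  have hψ2 : ψ.IsHomogeneous 2 := graded_genLine x (X.form 0) 2
  have hl2' : ¬ l ∣ 2 := fun h => hl2 ((Nat.prime_dvd_prime_iff_eq hl Nat.prime_two).1 h)
  have haev : ∀ (g : MvPolynomial (Fin (n + 1)) K) (c : Fin (n + 1) → K) (M : Type u) [Field M]
      [Algebra K M], aeval (fun i => algebraMap K M (c i)) g = algebraMap K M (eval c g) := by
    intro g c M _ _
    exact MvPolynomial.aeval_algebraMap_apply M c g
  -- points of the line
  have hline : ∀ (M : Type u) [Field M] [Algebra K M] [FiniteDimensional K M]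
      (c : Fin (n + 1) → M) (hc : X.IsPt c) (a b : M),
      (∀ i, c i = a * algebraMap K M (s i) + b * algebraMap K M (s' i)) →
      ptCycle X c hc - (Module.finrank K M : ℤ) • ptCycle X s hsp ∈ ratEquiv X := by
    intro M _ _ _ c hc a b hcab
    have hsM := isPt_algebraMap X (L := M) s hsp
    rw [← ptCycle_tower X s hsp hsM]
    have hab : a ≠ 0 ∨ b ≠ 0 := by
      by_contra hcon
      push Not at hcon
      exact hc.1 (funext fun i => by rw [hcab i, hcon.1, hcon.2]; simp)
    refine line_equiv X c _ hc hsM ?_
    have heq : (fun i => RatFunc.C (c i) + RatFunc.X * RatFunc.C (algebraMap K M (s i)) :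
        Fin (n + 1) → RatFunc M) = fun i =>
          (RatFunc.C a + RatFunc.X) * algebraMap K (RatFunc M) (s i) +
            RatFunc.C b * algebraMap K (RatFunc M) (s' i) := by
      funext i
      rw [hcab i, IsScalarTower.algebraMap_apply K M (RatFunc M) (s i),
        IsScalarTower.algebraMap_apply K M (RatFunc M) (s' i)]
      change _ = (RatFunc.C a + RatFunc.X) * RatFunc.C (algebraMap K M (s i)) +
        RatFunc.C b * RatFunc.C (algebraMap K M (s' i))
      rw [map_add, map_mul, map_mul]
      ring
    rw [heq]
    refine hs (RatFunc M) _ _ (Or.inl fun h0 => ?_)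
    have h1 : algebraMap (Polynomial M) (RatFunc M) (Polynomial.C a + Polynomial.X) = 0 := by
      rw [map_add, RatFunc.algebraMap_C, RatFunc.algebraMap_X]
      exact h0
    rw [map_eq_zero_iff _ (RatFunc.algebraMap_injective M)] at h1
    have h2 := congrArg (fun p => Polynomial.coeff p 1) h1
    simp at h2
  -- a point of the line joined to `x` by a line on the cubic
  have hend : ∀ (M : Type u) [Field M] [Algebra K M] [FiniteDimensional K M]
      (c : Fin (n + 1) → M) (hc : X.IsPt c) (a b : M),
      (∀ i, c i = a * algebraMap K M (s i) + b * algebraMap K M (s' i)) →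
      (Module.finrank K M).Coprime l →
      (Module.finrank K M : ℤ) • ptCycle X x hx - ptCycle X c hc ∈ ratEquiv X →
      ∃ m : ℕ, m.Coprime l ∧ (m : ℤ) • (ptCycle X x hx - ptCycle X s hsp) ∈ ratEquiv X := by
    intro M _ _ _ c hc a b hcab hcop h1
    refine ⟨Module.finrank K M, hcop, ?_⟩
    have h2 := add_mem h1 (hline M c hc a b hcab)
    rw [sub_add_sub_cancel, ← smul_sub] at h2
    exact h2
  have hself : ∀ (c : Fin (n + 1) → K) (hc : X.IsPt c) (a b : K),
      (∀ i, c i = a * s i + b * s' i) → eval c φ = 0 → eval c ψ = 0 →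
      ∃ m : ℕ, m.Coprime l ∧ (m : ℤ) • (ptCycle X x hx - ptCycle X s hsp) ∈ ratEquiv X := by
    intro c hc a b hcab h1 h2
    refine hend K c hc a b hcab ?_ (cubic_equiv hd hx c hc ?_ ?_)
    · rw [Module.finrank_self]
      exact Nat.coprime_one_left l
    · exact h1
    · exact h2
  -- a root of the quadratic form
  have hquad : ∀ (c₀ c₁ : Fin (n + 1) → K), eval c₀ ψ ≠ 0 →
      ∃ (M : Type u) (_ : Field M) (_ : Algebra K M), FiniteDimensional K M ∧
        (Module.finrank K M).Coprime l ∧ ∃ α : M,
          aeval (fun i => α * algebraMap K M (c₀ i) + algebraMap K M (c₁ i)) ψ = 0 := by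
    intro c₀ c₁ h0
    obtain ⟨u, hu⟩ := aeval_two_comb hψ2 c₀ c₁
    set P : Polynomial K := Polynomial.C (eval c₀ ψ) * Polynomial.X ^ 2 +
      Polynomial.C u * Polynomial.X + Polynomial.C (eval c₁ ψ) with hP
    have hdeg : P.natDegree = 2 := Polynomial.natDegree_quadratic h0
    have hP0 : P ≠ 0 := by
      intro h
      rw [h, Polynomial.natDegree_zero] at hdeg
      omega
    obtain ⟨M, iF, iA, h1, h2, α, hα⟩ := exists_root_primeTo hl P hP0 (by rw [hdeg]; exact hl2')
    refine ⟨M, iF, iA, h1, h2, α, ?_⟩
    have h3 := hu α (1 : M)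
    simp only [one_mul, one_pow, mul_one] at h3
    rw [h3, ← hα, hP]
    simp only [map_add, map_mul, map_pow, Polynomial.aeval_C, Polynomial.aeval_X]
  by_cases hφ0 : eval s φ = 0 ∧ eval s' φ = 0
  · -- the linear form vanishes on the line
    obtain ⟨hφs, hφs'⟩ := hφ0
    by_cases hψs : eval s ψ = 0
    · exact hself s hsp 1 0 (fun i => by ring) hφs hψs
    · obtain ⟨M, iF, iA, h1, h2, α, hα⟩ := hquad s s' hψs
      have hc : X.IsPt fun i => α * algebraMap K M (s i) + algebraMap K M (s' i) := by
        have h3 := hs M α 1 (Or.inr one_ne_zero)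
        simpa only [one_mul] using h3
      refine hend M _ hc α 1 (fun i => by rw [one_mul]) h2 (cubic_equiv hd hx _ hc ?_ hα)
      have h3 := aeval_one_comb hφ1 s s' α (1 : M)
      rw [hφs, hφs', map_zero, zero_mul, zero_mul, add_zero] at h3
      simpa only [one_mul] using h3
  · -- the zero `c₀` of the linear form
    set c₀ : Fin (n + 1) → K := fun i => eval s' φ * s i - eval s φ * s' i with hc₀
    have hne : eval s' φ ≠ 0 ∨ -eval s φ ≠ 0 := by
      by_contra hcon
      push Not at hcon
      exact hφ0 ⟨neg_eq_zero.1 hcon.2, hcon.1⟩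
    have hc₀p : X.IsPt c₀ := by
      have h3 := hs K (eval s' φ) (-eval s φ) hne
      have h4 : (fun i => eval s' φ * algebraMap K K (s i) + -eval s φ * algebraMap K K (s' i)) =
          c₀ := by
        funext i
        simp only [Algebra.algebraMap_self, RingHom.id_apply, hc₀]
        ring
      rwa [h4] at h3
    have hφc₀ : eval c₀ φ = 0 := by
      have h3 := aeval_one_comb hφ1 s s' (eval s' φ) (-eval s φ)
      have h4 : (fun i => eval s' φ * algebraMap K K (s i) + -eval s φ * algebraMap K K (s' i)) =
          c₀ := by
        funext i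
        simp only [Algebra.algebraMap_self, RingHom.id_apply, hc₀]
        ring
      rw [h4] at h3
      change eval c₀ φ = _ at h3
      rw [h3]
      simp only [Algebra.algebraMap_self, RingHom.id_apply]
      ring
    by_cases hψc₀ : eval c₀ ψ = 0
    · exact hself c₀ hc₀p (eval s' φ) (-eval s φ) (fun i => by rw [hc₀]; ring) hφc₀ hψc₀
    · -- a second point `c₁` of the line
      obtain ⟨c₁, a₁, b₁, hc₁, hφc₁, hind⟩ : ∃ (c₁ : Fin (n + 1) → K) (a₁ b₁ : K),
          (∀ i, c₁ i = a₁ * s i + b₁ * s' i) ∧ eval c₁ φ ≠ 0 ∧
          eval s' φ * b₁ + eval s φ * a₁ ≠ 0 := by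
        by_cases h0 : eval s φ = 0
        · have h1 : eval s' φ ≠ 0 := fun h => hφ0 ⟨h0, h⟩
          exact ⟨s', 0, 1, fun i => by ring, h1, by rw [h0]; simpa using h1⟩
        · exact ⟨s, 1, 0, fun i => by ring, h0, by simpa using h0⟩
      obtain ⟨M, iF, iA, hfin, hcop, α, hα⟩ := hquad c₀ c₁ hψc₀
      obtain ⟨u, hu⟩ := aeval_two_comb (hψ2.map (algebraMap K M)) (fun i => algebraMap K M (c₀ i))
        (fun i => α * algebraMap K M (c₀ i) + algebraMap K M (c₁ i))
      set cs : Fin (n + 1) → M := fun i => α * algebraMap K M (c₀ i) + algebraMap K M (c₁ i)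
        with hcs
      set u₀ : M := algebraMap K M (eval c₀ ψ) with hu₀
      set v : M := algebraMap K M (eval c₁ φ) with hv
      have hu₀0 : u₀ ≠ 0 := (_root_.map_ne_zero _).2 hψc₀
      have hv0 : v ≠ 0 := (_root_.map_ne_zero _).2 hφc₁
      have hx' := isPt_algebraMap X (L := M) x hx
      -- the coordinates on the line
      have hcs' : ∀ i, cs i = (α * algebraMap K M (eval s' φ) + algebraMap K M a₁) *
          algebraMap K M (s i) + (-α * algebraMap K M (eval s φ) + algebraMap K M b₁) *
          algebraMap K M (s' i) := by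
        intro i
        simp only [hcs, hc₀, hc₁ i, map_sub, map_mul, map_add]
        ring
      have hcsp : X.IsPt cs := by
        have h3 := hs M (α * algebraMap K M (eval s' φ) + algebraMap K M a₁)
          (-α * algebraMap K M (eval s φ) + algebraMap K M b₁) (by
            by_contra hcon
            push Not at hcon
            apply hind
            apply (algebraMap K M).injective
            rw [map_add, map_mul, map_mul, map_zero]
            linear_combination algebraMap K M (eval s' φ) * hcon.2 +
              algebraMap K M (eval s φ) * hcon.1)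
        have h4 : cs = fun i => (α * algebraMap K M (eval s' φ) + algebraMap K M a₁) *
            algebraMap K M (s i) + (-α * algebraMap K M (eval s φ) + algebraMap K M b₁) *
            algebraMap K M (s' i) := funext hcs'
        rw [h4]
        exact h3
      have hφcs : aeval cs φ = v := by
        have h3 := aeval_one_comb hφ1 c₀ c₁ α (1 : M)
        rw [hφc₀, map_zero, zero_mul, zero_add, mul_one] at h3
        simpa only [one_mul] using h3
      set t : RatFunc M := RatFunc.X with ht
      set z : Fin (n + 1) → RatFunc M := fun i =>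
        algebraMap K (RatFunc M) (c₀ i) + t * algebraMap M (RatFunc M) (cs i) with hz
      have htow : ∀ a : K, algebraMap M (RatFunc M) (algebraMap K M a) =
          algebraMap K (RatFunc M) a := fun a =>
        (IsScalarTower.algebraMap_apply K M (RatFunc M) a).symm
      have hzp : X.IsPt z := by
        have h3 := hs (RatFunc M)
          (algebraMap K (RatFunc M) (eval s' φ) + t * algebraMap M (RatFunc M)
            (α * algebraMap K M (eval s' φ) + algebraMap K M a₁))
          (-algebraMap K (RatFunc M) (eval s φ) + t * algebraMap M (RatFunc M)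
            (-α * algebraMap K M (eval s φ) + algebraMap K M b₁)) (by
            by_contra hcon
            push Not at hcon
            have key : ∀ (A : K) (B : M), algebraMap K (RatFunc M) A +
                t * algebraMap M (RatFunc M) B = 0 → A = 0 := by
              intro A B hAB
              have h4 : algebraMap (Polynomial M) (RatFunc M)
                  (Polynomial.C (algebraMap K M A) + Polynomial.X * Polynomial.C B) = 0 := by
                rw [map_add, map_mul, RatFunc.algebraMap_C, RatFunc.algebraMap_C,
                  RatFunc.algebraMap_X]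
                rw [← htow] at hAB
                exact hAB
              rw [map_eq_zero_iff _ (RatFunc.algebraMap_injective M)] at h4
              have h5 := congrArg (fun p => Polynomial.coeff p 0) h4
              simpa using h5
            have e1 := key _ _ hcon.1
            have e2 := key (-eval s φ) _ (by rw [map_neg]; exact hcon.2)
            exact hφ0 ⟨neg_eq_zero.1 e2, e1⟩)
        have h4 : z = fun i => (algebraMap K (RatFunc M) (eval s' φ) +
            t * algebraMap M (RatFunc M) (α * algebraMap K M (eval s' φ) + algebraMap K M a₁)) *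
            algebraMap K (RatFunc M) (s i) +
            (-algebraMap K (RatFunc M) (eval s φ) + t * algebraMap M (RatFunc M)
            (-α * algebraMap K M (eval s φ) + algebraMap K M b₁)) *
            algebraMap K (RatFunc M) (s' i) := by
          funext i
          simp only [hz, hcs' i, hc₀, map_add, map_mul, map_sub, map_neg, htow]
          ring
        rw [h4]
        exact h3
      -- the values of the forms on the line
      have hψz : aeval z ψ = algebraMap M (RatFunc M) u₀ + algebraMap M (RatFunc M) u * t := by
        have h3 := hu (R := RatFunc M) 1 t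
        have h4 : (fun i => (1 : RatFunc M) * algebraMap M (RatFunc M) (algebraMap K M (c₀ i)) +
            t * algebraMap M (RatFunc M) (cs i)) = z := by
          funext i
          rw [one_mul, htow]
        rw [h4, aeval_map_algebraMap] at h3
        rw [h3, eval_map, ← aeval_def, haev, eval_map, ← aeval_def, hα, map_zero]
        ring
      have hφz : aeval z φ = algebraMap M (RatFunc M) v * t := by
        have h3 := aeval_one_comb (hφ1.map (algebraMap K M)) (fun i => algebraMap K M (c₀ i)) cs
          (R := RatFunc M) 1 t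
        have h4 : (fun i => (1 : RatFunc M) * algebraMap M (RatFunc M) (algebraMap K M (c₀ i)) +
            t * algebraMap M (RatFunc M) (cs i)) = z := by
          funext i
          rw [one_mul, htow]
        rw [h4, aeval_map_algebraMap] at h3
        rw [h3, eval_map, ← aeval_def, haev, hφc₀, map_zero, map_zero, eval_map, ← aeval_def,
          hφcs]
        ring
      -- the conic
      let p : Fin (n + 1) → Polynomial M := fun i =>
        Polynomial.C (-v * cs i) * Polynomial.X ^ 2 +
        Polynomial.C (u * algebraMap K M (x i) - v * algebraMap K M (c₀ i)) * Polynomial.X +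
          Polynomial.C (u₀ * algebraMap K M (x i))
      have hp0 : ∀ i, (p i).coeff 0 = u₀ * algebraMap K M (x i) := by
        intro i
        simp [p]
      have hp2 : ∀ i, (p i).coeff 2 = -v * cs i := by
        intro i
        have h1 : (Polynomial.C (u₀ * algebraMap K M (x i))).coeff 2 = 0 :=
          Polynomial.coeff_C_of_ne_zero two_ne_zero
        simp only [p, Polynomial.coeff_add, Polynomial.coeff_C_mul, Polynomial.coeff_X_pow,
          Polynomial.coeff_X, h1]
        norm_num
      have hpd : ∀ i, (p i).natDegree ≤ 2 := fun i => Polynomial.natDegree_quadratic_le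
      have hpt : ∀ i, Polynomial.aeval t (p i) =
          aeval z ψ * algebraMap K (RatFunc M) (x i) + (-aeval z φ) * z i := by
        intro i
        rw [hψz, hφz]
        simp only [p, hz, map_add, map_mul, map_sub, map_neg, map_pow, Polynomial.aeval_C,
          Polynomial.aeval_X, htow]
        ring
      have hcurve : X.IsPt (fun i => Polynomial.aeval t (p i) : Fin (n + 1) → RatFunc M) := by
        refine ⟨fun h0 => ?_, fun i => ?_⟩
        · obtain ⟨i, hi⟩ := Function.ne_iff.1 hx'.1
          apply hi
          have h3 : Polynomial.aeval t (p i) = 0 := congrFun h0 i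
          have h4 : p i = 0 := transcendental_iff.1 transcendental_X _ h3
          have h5 := hp0 i
          rw [h4, Polynomial.coeff_zero] at h5
          exact (mul_eq_zero.1 h5.symm).resolve_left hu₀0
        · rw [Subsingleton.elim i 0]
          have h3 := cubic_line hd hx (M := RatFunc M) z hzp (aeval z ψ) (-aeval z φ)
          have h4 : (fun i => Polynomial.aeval t (p i) : Fin (n + 1) → RatFunc M) = fun i =>
              aeval z ψ * algebraMap K (RatFunc M) (x i) + (-aeval z φ) * z i := funext hpt
          rw [h4, h3]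
          ring
      have hA : X.IsPt fun i => u₀ * algebraMap K M (x i) := by
        refine ⟨fun h0 => hx'.1 (funext fun i => ?_), fun i => ?_⟩
        · exact (mul_eq_zero.1 (congrFun h0 i)).resolve_left hu₀0
        · rw [aeval_scale (X.hom i), hx'.2 i, mul_zero]
      have hD : X.IsPt fun i => -v * cs i := by
        refine ⟨fun h0 => hcsp.1 (funext fun i => ?_), fun i => ?_⟩
        · exact (mul_eq_zero.1 (congrFun h0 i)).resolve_left (neg_ne_zero.2 hv0)
        · rw [aeval_scale (X.hom i), hcsp.2 i, mul_zero]
      have h3 := curve_equiv X _ _ hA hD p 2 hp0 hp2 hpd hcurve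
      rw [← ptCycle_congr X (AlgEquiv.refl : M ≃ₐ[K] M) u₀ hu₀0 hx' hA (fun i => rfl),
        ← ptCycle_congr X (AlgEquiv.refl : M ≃ₐ[K] M) (-v) (neg_ne_zero.2 hv0) hcsp hD
          (fun i => rfl), ptCycle_tower X x hx hx'] at h3
      exact hend M cs hcsp _ _ hcs' hcop h3

end

end ZC
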