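import Pool.Agent.Helper33.ZC.Exist
import Pool.Agent.Helper72.ZC.Gen
import Pool.Agent.Helper55.BD.Up

/-!
# Lines meeting a hypersurface in one point, over extensions of degree prime to `l`
-/

set_option autoImplicit false

open MvPolynomial

namespace ZC

universe u

open Pool.Agent.Helper91.ZC

/-- The cost, at the prime `l`, of the forms of the degrees `1, ..., d - 1`: the sum of the
products of these numbers with their `l`-parts. -/
def flexCost (l d : ℕ) : ℕ :=
  ∑ j ∈ Finset.range d, j * l ^ padicValNat l j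

theorem aeval_genLine_coeff {L M σ : Type*} [CommRing L] [CommRing M] [Algebra L M] (x : σ → L)
    (z : σ → M) (g : MvPolynomial σ L) (j : ℕ) :
    aeval z ((genLine x g).coeff j) =
      (onLine (fun i => algebraMap L M (x i)) z (MvPolynomial.map (algebraMap L M) g)).coeff j := by
  have h : (genLine x g).map (aeval z : MvPolynomial σ L →ₐ[L] M).toRingHom =
      onLine (fun i => algebraMap L M (x i)) z (MvPolynomial.map (algebraMap L M) g) := by
    unfold genLine onLine
    rw [eval₂_map]
    change Polynomial.mapRingHom (aeval z : MvPolynomial σ L →ₐ[L] M).toRingHom _ = _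
    rw [hom_eval₂]
    have h1 : (Polynomial.mapRingHom (aeval z : MvPolynomial σ L →ₐ[L] M).toRingHom).comp
        (Polynomial.C.comp C) = Polynomial.C.comp (algebraMap L M) := by
      ext a
      simp
    rw [h1]
    congr 1
    funext i
    simp
  rw [← h, Polynomial.coeff_map]
  rfl

/-- **A line which meets the hypersurface in one point**, over an extension of degree prime to
`l`. -/
theorem exists_tan_at {L : Type u} [Field L] {l : ℕ} (hL : WTLup l L) {n : ℕ} (X : ProjVar L n 1)
    (hd : 0 < X.d 0) (hn : flexCost l (X.d 0) < n) (x : Fin (n + 1) → L) (hx : X.IsPt x) :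
    ∃ (M : Type u) (_ : Field M) (_ : Algebra L M), FiniteDimensional L M ∧
      (Module.finrank L M).Coprime l ∧
      ∃ (z : Fin (n + 1) → M) (e : M), (∀ a : M, z ≠ a • fun i => algebraMap L M (x i)) ∧
        Tan X (fun i => algebraMap L M (x i)) z e := by
  classical
  obtain ⟨j0, hj0⟩ := Function.ne_iff.1 hx.1
  obtain ⟨m, hm⟩ : ∃ m, X.d 0 = m + 1 := ⟨X.d 0 - 1, by omega⟩
  let e : Fin (m + 1) → ℕ := Fin.cons 1 fun q => (q : ℕ) + 1
  let f : Fin (m + 1) → MvPolynomial (Fin (n + 1)) L :=
    Fin.cons (MvPolynomial.X j0) fun q => (genLine x (X.form 0)).coeff ((q : ℕ) + 1)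
  have hf : ∀ q, (f q).IsHomogeneous (e q) := by
    intro q
    refine Fin.cases ?_ (fun q => ?_) q
    · exact isHomogeneous_X _ _
    · exact graded_genLine _ _ _
  have he : ∀ q, 0 < e q := by
    intro q
    refine Fin.cases ?_ (fun q => ?_) q
    · exact Nat.one_pos
    · exact Nat.succ_pos _
  have hsum : ∑ q, e q ^ 1 * l ^ padicValNat l (e q) ≤ n := by
    rw [Fin.sum_univ_succ]
    have h1 : ∑ q : Fin m, e q.succ ^ 1 * l ^ padicValNat l (e q.succ) = flexCost l (X.d 0) := by
      rw [flexCost, hm, Finset.sum_range_succ']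
      simp only [zero_mul, add_zero]
      rw [← Fin.sum_univ_eq_sum_range (fun q => (q + 1) * l ^ padicValNat l (q + 1)) m]
      refine Finset.sum_congr rfl fun q _ => ?_
      change ((q : ℕ) + 1) ^ 1 * _ = _
      rw [pow_one]
      rfl
    rw [h1]
    have h2 : e 0 ^ 1 * l ^ padicValNat l (e 0) = 1 := by
      change 1 ^ 1 * l ^ padicValNat l 1 = 1
      simp
    omega
  obtain ⟨M, iF, iA, hfin, -, hcop, z, hz0, hz⟩ :=
    (wtlupI_one.2 hL).exists_zero (n := n) e he hsum f hf
  have hzj : z j0 = 0 := by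
    have h1 := hz 0
    change aeval z (MvPolynomial.X j0 : MvPolynomial (Fin (n + 1)) L) = 0 at h1
    rwa [aeval_X] at h1
  refine ⟨M, iF, iA, hfin, hcop, z, aeval z (X.form 0), ?_, ?_⟩
  · intro a ha
    have h1 : z j0 = a * algebraMap L M (x j0) := congrFun ha j0
    rw [hzj] at h1
    rcases mul_eq_zero.1 h1.symm with h | h
    · apply hz0
      rw [ha, h, zero_smul]
    · exact hj0 ((map_eq_zero _).1 h)
  · refine tan_of X (isPt_algebraMap X x hx) (fun j h1 h2 => ?_) hd
    obtain ⟨q, rfl⟩ : ∃ q, j = q + 1 := ⟨j - 1, by omega⟩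
    have h3 := hz (Fin.succ ⟨q, by omega⟩)
    change aeval z ((genLine x (X.form 0)).coeff (q + 1)) = 0 at h3
    rw [← h3, aeval_genLine_coeff]

end ZC
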