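import Pool.Agent.Helper72.HY.Exist
import Pool.Agent.Helper15.ZF.Norm3
import Pool.Agent.Helper89.BD.Gen

/-!
# A pencil of lines between two flex lines of a hypersurface of degree prime to `l`
-/

set_option autoImplicit false

open MvPolynomial

namespace ZC

universe u

open Pool.Agent.Helper91.ZC

/-- A polynomial of degree prime to `l` has an irreducible factor of degree prime to `l`. -/
theorem exists_factor_primeTo {E : Type*} [Field E] {l : ℕ} (P : Polynomial E) (hP : P ≠ 0)
    (hl : ¬ l ∣ P.natDegree) :
    ∃ Q : Polynomial E, Irreducible Q ∧ Q ∣ P ∧ ¬ l ∣ Q.natDegree := by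
  classical
  by_contra hcon
  push Not at hcon
  apply hl
  have h1 := UniqueFactorizationMonoid.factors_prod (a := P) hP
  have h2 : P.natDegree = (UniqueFactorizationMonoid.factors P).prod.natDegree :=
    (Polynomial.natDegree_eq_of_degree_eq (Polynomial.degree_eq_degree_of_associated h1)).symm
  have h0 : (0 : Polynomial E) ∉ UniqueFactorizationMonoid.factors P := fun h =>
    (UniqueFactorizationMonoid.irreducible_of_factor 0 h).ne_zero rfl
  rw [h2, Polynomial.natDegree_multiset_prod _ h0]
  refine Multiset.dvd_sum fun m hm => ?_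
  obtain ⟨Q, hQ, rfl⟩ := Multiset.mem_map.1 hm
  exact hcon Q (UniqueFactorizationMonoid.irreducible_of_factor Q hQ)
    (UniqueFactorizationMonoid.dvd_of_mem_factors hQ)

section line

variable {K : Type u} [Field K] {n : ℕ}

/-- Coordinates on the line through two independent vectors. -/
theorem indep_of {x z : Fin (n + 1) → K} (hx : x ≠ 0) (hz : ∀ a : K, z ≠ a • x) :
    ∃ i j, x i * z j - x j * z i ≠ 0 := by
  by_contra hcon
  push Not at hcon
  obtain ⟨i, hi⟩ := Function.ne_iff.1 hx
  rw [Pi.zero_apply] at hi
  apply hz (z i / x i)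
  funext j
  rw [Pi.smul_apply, smul_eq_mul, div_mul_eq_mul_div, eq_div_iff hi]
  linear_combination hcon i j

theorem line_ne_zero {x z : Fin (n + 1) → K} (hx : x ≠ 0) (hz : ∀ a : K, z ≠ a • x) {R : Type*}
    [CommRing R] [IsDomain R] [Algebra K R] (a b : R) (hab : a ≠ 0 ∨ b ≠ 0) :
    (fun i => a * algebraMap K R (x i) + b * algebraMap K R (z i)) ≠ 0 := by
  obtain ⟨i, j, hij⟩ := indep_of hx hz
  intro h
  have h1 := congrFun h i
  have h2 := congrFun h j
  simp only [Pi.zero_apply] at h1 h2
  have hne : algebraMap K R (x i * z j - x j * z i) ≠ 0 := by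
    rw [Ne, map_eq_zero_iff _ (FaithfulSMul.algebraMap_injective K R)]
    exact hij
  have ha : a * algebraMap K R (x i * z j - x j * z i) = 0 := by
    rw [map_sub, map_mul, map_mul]
    linear_combination algebraMap K R (z j) * h1 - algebraMap K R (z i) * h2
  have hb : b * algebraMap K R (x i * z j - x j * z i) = 0 := by
    rw [map_sub, map_mul, map_mul]
    linear_combination algebraMap K R (x i) * h2 - algebraMap K R (x j) * h1
  rcases hab with h | h
  · exact h ((mul_eq_zero.1 ha).resolve_right hne)
  · exact h ((mul_eq_zero.1 hb).resolve_right hne)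

/-- A point on a flex line is rationally equivalent to the point of contact. -/
theorem flex_equiv (X : ProjVar K n 1) {x z : Fin (n + 1) → K} {e : K} (hx : X.IsPt x)
    (ht : Tan X x z e) (hz : ∀ a : K, z ≠ a • x) {κ : Type u} [Field κ] [Algebra K κ]
    [FiniteDimensional K κ] (a b : κ)
    (hy : X.IsPt fun i => a * algebraMap K κ (x i) + b * algebraMap K κ (z i)) :
    ptCycle X _ hy - (Module.finrank K κ : ℤ) • ptCycle X x hx ∈ ratEquiv X := by
  have hx' := isPt_algebraMap X (L := κ) x hx
  have hab : a ≠ 0 ∨ b ≠ 0 := by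
    by_contra hcon
    push Not at hcon
    obtain ⟨rfl, rfl⟩ := hcon
    exact hy.1 (funext fun i => by simp)
  have heb : algebraMap K κ e * b ^ (X.d 0) = 0 := by
    rw [← ht κ a b]
    exact hy.2 0
  have hline : X.IsPt (fun i => RatFunc.C (algebraMap K κ (x i)) + RatFunc.X *
      RatFunc.C (a * algebraMap K κ (x i) + b * algebraMap K κ (z i)) :
      Fin (n + 1) → RatFunc κ) := by
    have heq : (fun i => RatFunc.C (algebraMap K κ (x i)) + RatFunc.X *
        RatFunc.C (a * algebraMap K κ (x i) + b * algebraMap K κ (z i)) :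
        Fin (n + 1) → RatFunc κ) = fun i =>
          (1 + RatFunc.X * RatFunc.C a) * algebraMap K (RatFunc κ) (x i) +
            (RatFunc.X * RatFunc.C b) * algebraMap K (RatFunc κ) (z i) := by
      funext i
      rw [IsScalarTower.algebraMap_apply K κ (RatFunc κ) (x i),
        IsScalarTower.algebraMap_apply K κ (RatFunc κ) (z i)]
      change _ = (1 + RatFunc.X * RatFunc.C a) * RatFunc.C (algebraMap K κ (x i)) +
        (RatFunc.X * RatFunc.C b) * RatFunc.C (algebraMap K κ (z i))
      rw [map_add, map_mul, map_mul]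
      ring
    rw [heq]
    refine ⟨line_ne_zero hx.1 hz _ _ ?_, fun i => ?_⟩
    · by_cases hb : b = 0
      · left
        subst hb
        intro h0
        have h1 : (1 : RatFunc κ) + RatFunc.X * RatFunc.C a =
            algebraMap (Polynomial κ) (RatFunc κ) (1 + Polynomial.X * Polynomial.C a) := by
          rw [map_add, map_one, map_mul, RatFunc.algebraMap_X, RatFunc.algebraMap_C]
        rw [h1, map_eq_zero_iff _ (RatFunc.algebraMap_injective κ)] at h0
        have h2 := congrArg (fun p => Polynomial.coeff p 0) h0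
        simp at h2
      · right
        exact mul_ne_zero RatFunc.X_ne_zero ((map_ne_zero _).2 hb)
    · rw [Subsingleton.elim i 0, ht (RatFunc κ)]
      rw [mul_pow, ← map_pow, IsScalarTower.algebraMap_apply K κ (RatFunc κ)]
      change RatFunc.C (algebraMap K κ e) * (RatFunc.X ^ X.d 0 * RatFunc.C (b ^ X.d 0)) = 0
      rw [mul_left_comm, ← map_mul, heb, map_zero, mul_zero]
  have h1 := line_equiv X _ _ hx' hy hline
  rw [← ptCycle_tower X x hx hx', ← neg_sub]
  exact neg_mem h1

end line

section loc

variable {K : Type u} [Field K] {n : ℕ}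

/-- The value of a point of a pencil of lines at a place where the line becomes a flex line. -/
theorem local_pencil (X : ProjVar K n 1) {E : Type u} [Field E] [Algebra K E]
    (hE : IsCurveField K E) (w : Place K E) {s : E} (hs : w.A.valuation s < 1)
    {x z : Fin (n + 1) → K} {e : K} (hx : X.IsPt x) (ht : Tan X x z e)
    (hz : ∀ a : K, z ≠ a • x) (x' z' : Fin (n + 1) → K) (θ g : E)
    (q : Fin (n + 1) → E) (hq : X.IsPt q)
    (h : ∀ i, q i = g * ((algebraMap K E (x i) + s * algebraMap K E (x' i)) +
      θ * (algebraMap K E (z i) + s * algebraMap K E (z' i)))) :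
    ptCycle X (red w q hq.1) (red_isPt X w q hq) - (w.deg : ℤ) • ptCycle X x hx ∈
      ratEquiv X := by
  have hfin : FiniteDimensional K w.res := Place.finite_residue hE w
  have hsA : s ∈ w.A := (w.A.valuation_le_one_iff s).1 hs.le
  have hres : IsLocalRing.residue w.A ⟨s, hsA⟩ = 0 := by
    rw [IsLocalRing.residue_eq_zero_iff]
    exact (ValuationSubring.valuation_lt_one_iff w.A _).2 hs
  obtain ⟨g', α, β, hg, hab⟩ : ∃ (g' : E) (α β : w.A), (∀ i, q i = g' *
      ((α : E) * (algebraMap K E (x i) + s * algebraMap K E (x' i)) +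
      (β : E) * (algebraMap K E (z i) + s * algebraMap K E (z' i)))) ∧
      (IsUnit α ∨ IsUnit β) := by
    rcases w.A.mem_or_inv_mem θ with hθ | hθ
    · exact ⟨g, 1, ⟨θ, hθ⟩, fun i => by rw [h i]; simp, Or.inl isUnit_one⟩
    · by_cases h0 : θ = 0
      · exact ⟨g, 1, 0, fun i => by rw [h i, h0]; simp, Or.inl isUnit_one⟩
      · refine ⟨g * θ, ⟨θ⁻¹, hθ⟩, 1, fun i => ?_, Or.inr isUnit_one⟩
        rw [h i]
        simp only [OneMemClass.coe_one]
        field_simp
  let y' : Fin (n + 1) → w.A := fun i =>
    α * (algebraMap K w.A (x i) + ⟨s, hsA⟩ * algebraMap K w.A (x' i)) +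
      β * (algebraMap K w.A (z i) + ⟨s, hsA⟩ * algebraMap K w.A (z' i))
  have hy' : ∀ i, IsLocalRing.residue w.A (y' i) =
      IsLocalRing.residue w.A α * algebraMap K w.res (x i) +
        IsLocalRing.residue w.A β * algebraMap K w.res (z i) := by
    intro i
    change IsLocalRing.residue w.A (_ * (_ + _ * _) + _ * (_ + _ * _)) = _
    rw [map_add, map_mul, map_mul, map_add, map_add, map_mul, map_mul, hres, zero_mul, zero_mul,
      add_zero, add_zero]
    rfl
  have hne : (fun i => IsLocalRing.residue w.A α * algebraMap K w.res (x i) +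
        IsLocalRing.residue w.A β * algebraMap K w.res (z i)) ≠ 0 := by
    refine line_ne_zero hx.1 hz _ _ ?_
    rcases hab with hu | hu
    · left
      rwa [Ne, ← Ne, IsLocalRing.residue_ne_zero_iff_isUnit]
    · right
      rwa [Ne, ← Ne, IsLocalRing.residue_ne_zero_iff_isUnit]
  obtain ⟨i₀, hi₀⟩ := Function.ne_iff.1 hne
  have hu : IsUnit (y' i₀) := by
    rw [← IsLocalRing.residue_ne_zero_iff_isUnit, hy']
    exact hi₀
  obtain ⟨c, hc, h1⟩ := red_eq w q hq.1 g' y' (fun i => hg i) i₀ hu
  have hy : X.IsPt fun i => IsLocalRing.residue w.A α * algebraMap K w.res (x i) +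
        IsLocalRing.residue w.A β * algebraMap K w.res (z i) := by
    refine ⟨hne, fun i => ?_⟩
    have h2 := (red_isPt X w q hq).2 i
    have h3 : red w q hq.1 = fun i => c * (IsLocalRing.residue w.A α * algebraMap K w.res (x i) +
        IsLocalRing.residue w.A β * algebraMap K w.res (z i)) := by
      funext i
      rw [h1 i, hy' i]
    rw [h3, aeval_scale (X.hom i)] at h2
    exact (mul_eq_zero.1 h2).resolve_left (pow_ne_zero _ hc)
  have h4 := ptCycle_congr X (AlgEquiv.refl : w.res ≃ₐ[K] w.res) c hc hy (red_isPt X w q hq)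
    (fun i => by rw [h1 i, hy' i]; rfl)
  rw [← h4]
  exact flex_equiv X hx ht hz _ _ hy

end loc

section pencil

variable {K : Type u} [Field K] {n : ℕ}

theorem deg_zero {E : Type u} [Field E] [Algebra K E] (w : Place K E) {t : E}
    (hw : w.A.valuation t < 1) (hadj : IntermediateField.adjoin K {t} = ⊤) : w.deg = 1 := by
  rw [Place.deg, ← (Place.resEquiv w hw hadj).toLinearEquiv.finrank_eq, Module.finrank_self]

/-- The sum over the places over the zero of `t`. -/
theorem sum_lying_equiv (X : ProjVar K n 1) {E M : Type u} [Field E] [Field M] [Algebra K E]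
    [Algebra K M] [Algebra E M] [IsScalarTower K E M] [FiniteDimensional E M]
    (hE : IsCurveField K E) (hM : IsCurveField K M) (w₀ : Place K E) (hdeg : w₀.deg = 1)
    {t s : E} (ht0 : t ≠ 0) (hs0 : s ≠ 0) (hs : 0 < w₀.ord s)
    {x z : Fin (n + 1) → K} {e : K} (hx : X.IsPt x) (ht : Tan X x z e)
    (hz : ∀ a : K, z ≠ a • x) (x' z' : Fin (n + 1) → K) (θ g : M)
    (q : Fin (n + 1) → M) (hq : X.IsPt q)
    (h : ∀ i, q i = g * ((algebraMap K M (x i) + algebraMap E M s * algebraMap K M (x' i)) +
      θ * (algebraMap K M (z i) + algebraMap E M s * algebraMap K M (z' i)))) :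
    ∑ w ∈ lying hE hM w₀, w.ord (algebraMap E M t) • ptCycle X (red w q hq.1)
      (red_isPt X w q hq) - ((Module.finrank E M : ℤ) * w₀.ord t) • ptCycle X x hx ∈
      ratEquiv X := by
  have h1 := sum_lying_const hE hM ht0 w₀
  rw [hdeg, Nat.cast_one, mul_one] at h1
  rw [← h1, Finset.sum_smul, ← Finset.sum_sub_distrib]
  refine sum_mem fun w hw => ?_
  rw [mul_smul, ← smul_sub]
  refine zsmul_mem (local_pencil X hM w ?_ hx ht hz x' z' θ g q hq h) _
  have hs' : algebraMap E M s ≠ 0 := (map_ne_zero _).2 hs0
  have h2 : 0 < w.ord (algebraMap E M s) := by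
    rw [w.pos_under hE hM hs0, (mem_lying hE hM w₀ w).1 hw]
    exact hs
  rw [(w.isOrd_of hM.hRel).pos_iff hs'] at h2
  exact (w.A.mem_nonunits_iff).1 h2

/-- **The pencil of lines.** -/
theorem pencil {l : ℕ} (hl : l.Prime) (X : ProjVar K n 1) (hd : ¬ l ∣ X.d 0)
    {x x' z z' : Fin (n + 1) → K} {e e' : K} (hx : X.IsPt x) (hx' : X.IsPt x')
    (ht : Tan X x z e) (ht' : Tan X x' z' e') (hz : ∀ a : K, z ≠ a • x)
    (hz' : ∀ a : K, z' ≠ a • x') :
    ∃ m : ℕ, m.Coprime l ∧ (m : ℤ) • (ptCycle X x hx - ptCycle X x' hx') ∈ ratEquiv X := by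
  classical
  set t : RatFunc K := RatFunc.X with htdef
  have ht0 : t ≠ 0 := RatFunc.X_ne_zero
  set p : Fin (n + 1) → RatFunc K := fun i =>
    algebraMap K (RatFunc K) (x i) + t * algebraMap K (RatFunc K) (x' i) with hp
  set v : Fin (n + 1) → RatFunc K := fun i =>
    algebraMap K (RatFunc K) (z i) + t * algebraMap K (RatFunc K) (z' i) with hv
  by_cases hfv : aeval v (X.form 0) = 0
  · -- all the lines lie in `X`
    have h1 : Polynomial.aeval t (onLine z z' (X.form 0)) = 0 := by
      rw [← aeval_onLine z z' (X.form 0) t]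
      exact hfv
    have h2 : onLine z z' (X.form 0) = 0 := transcendental_iff.1 transcendental_X _ h1
    obtain ⟨-, f2, f3⟩ := onLine_facts (X.hom 0) z z'
    rw [h2, Polynomial.coeff_zero] at f2 f3
    have hzX : X.IsPt z := by
      refine ⟨fun h0 => hz 0 (by rw [h0, zero_smul]), fun i => ?_⟩
      rw [Subsingleton.elim i 0]
      exact f3.symm
    have hzX' : X.IsPt z' := by
      refine ⟨fun h0 => hz' 0 (by rw [h0, zero_smul]), fun i => ?_⟩
      rw [Subsingleton.elim i 0]
      exact f2.symm
    have key : ∀ {x z : Fin (n + 1) → K} {e : K} (hx : X.IsPt x) (_ : Tan X x z e)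
        (_ : ∀ a : K, z ≠ a • x) (hzX : X.IsPt z),
        ptCycle X z hzX - ptCycle X x hx ∈ ratEquiv X := by
      intro x z e hx ht hz hzX
      have heq : (fun i => (0 : K) * algebraMap K K (x i) + 1 * algebraMap K K (z i)) = z := by
        funext i
        simp
      have h3 : X.IsPt fun i => (0 : K) * algebraMap K K (x i) + 1 * algebraMap K K (z i) := by
        rw [heq]
        exact hzX
      have h4 := flex_equiv X hx ht hz (κ := K) 0 1 h3
      rw [Module.finrank_self, Nat.cast_one, one_smul] at h4
      have h5 := ptCycle_congr X (AlgEquiv.refl : K ≃ₐ[K] K) 1 one_ne_zero hzX h3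
        (fun i => by simp)
      rw [h5]
      exact h4
    have h6 := key hx ht hz hzX
    have h7 := key hx' ht' hz' hzX'
    have h8 : ptCycle X z hzX - ptCycle X z' hzX' ∈ ratEquiv X := by
      refine line_equiv X z z' hzX hzX' ⟨fun h0 => ?_, fun i => ?_⟩
      · obtain ⟨i, hi⟩ := Function.ne_iff.1 hzX.1
        apply hi
        have h9 := congrFun h0 i
        have h10 : Polynomial.aeval t (Polynomial.C (z i) + Polynomial.X * Polynomial.C (z' i)) =
            0 := by
          rw [map_add, map_mul, Polynomial.aeval_C, Polynomial.aeval_C, Polynomial.aeval_X]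
          exact h9
        have h11 := transcendental_iff.1 transcendental_X _ h10
        have h12 := congrArg (fun p => Polynomial.coeff p 0) h11
        simpa using h12
      · rw [Subsingleton.elim i 0]
        exact hfv
    refine ⟨1, Nat.coprime_one_left l, ?_⟩
    rw [Nat.cast_one, one_smul]
    have h9 : ptCycle X x hx - ptCycle X x' hx' = (ptCycle X z hzX - ptCycle X z' hzX') -
        (ptCycle X z hzX - ptCycle X x hx) + (ptCycle X z' hzX' - ptCycle X x' hx') := by abel
    rw [h9]
    exact add_mem (sub_mem h8 h6) h7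
  · set g := MvPolynomial.map (algebraMap K (RatFunc K)) (X.form 0) with hg
    have hgh : g.IsHomogeneous (X.d 0) := (X.hom 0).map _
    set P := onLine p v g with hP
    obtain ⟨f1, f2, f3⟩ := onLine_facts hgh p v
    have hcoef : P.coeff (X.d 0) ≠ 0 := by
      rw [f2, hg, eval_map, ← aeval_def]
      exact hfv
    have hP0 : P ≠ 0 := fun h => hcoef (by rw [h, Polynomial.coeff_zero])
    have hnat : P.natDegree = X.d 0 := le_antisymm f1 (Polynomial.le_natDegree_of_ne_zero hcoef)
    obtain ⟨Q, hQ, hQP, hQl⟩ := exists_factor_primeTo P hP0 (by rw [hnat]; exact hd)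
    have hfact : Fact (Irreducible Q) := ⟨hQ⟩
    let M := AdjoinRoot Q
    have hfin : FiniteDimensional (RatFunc K) M := (AdjoinRoot.powerBasis hQ.ne_zero).finite
    have hrank : Module.finrank (RatFunc K) M = Q.natDegree := by
      rw [(AdjoinRoot.powerBasis hQ.ne_zero).finrank, AdjoinRoot.powerBasis_dim]
    have hE : IsCurveField K (RatFunc K) := isCurveField_ratFunc
    have hM : IsCurveField K M := isCurveField_of_finite hE
    let θ : M := AdjoinRoot.root Q
    have hθ : Polynomial.aeval θ P = 0 := by
      obtain ⟨R, hR⟩ := hQP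
      rw [hR, map_mul, AdjoinRoot.aeval_eq, AdjoinRoot.mk_self, zero_mul]
    let q : Fin (n + 1) → M := fun i => algebraMap (RatFunc K) M (p i) +
      θ * algebraMap (RatFunc K) M (v i)
    have hq : X.IsPt q := by
      refine ⟨fun h0 => ?_, fun i => ?_⟩
      · obtain ⟨i, j, hij⟩ := indep_of hx.1 hz
        apply hij
        have h1 : algebraMap (RatFunc K) M (p i) + θ * algebraMap (RatFunc K) M (v i) = 0 :=
          congrFun h0 i
        have h2 : algebraMap (RatFunc K) M (p j) + θ * algebraMap (RatFunc K) M (v j) = 0 :=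
          congrFun h0 j
        have h3 : algebraMap (RatFunc K) M (p i * v j - p j * v i) = 0 := by
          rw [map_sub, map_mul, map_mul]
          linear_combination algebraMap (RatFunc K) M (v j) * h1 -
            algebraMap (RatFunc K) M (v i) * h2
        have h4 : p i * v j - p j * v i = 0 := (map_eq_zero _).1 h3
        have h5 : Polynomial.aeval t
            ((Polynomial.C (x i) + Polynomial.X * Polynomial.C (x' i)) *
              (Polynomial.C (z j) + Polynomial.X * Polynomial.C (z' j)) -
            (Polynomial.C (x j) + Polynomial.X * Polynomial.C (x' j)) *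
              (Polynomial.C (z i) + Polynomial.X * Polynomial.C (z' i))) = 0 := by
          simp only [map_sub, map_add, map_mul, Polynomial.aeval_C, Polynomial.aeval_X]
          exact h4
        have h6 := transcendental_iff.1 transcendental_X _ h5
        have h7 := congrArg (fun p => Polynomial.coeff p 0) h6
        simpa [Polynomial.mul_coeff_zero] using h7
      · rw [Subsingleton.elim i 0, ← aeval_map_algebraMap (RatFunc K)]
        have h1 := aeval_onLine p v g θ
        rw [← hP, hθ] at h1
        exact h1
    have hqc : curveCycle X q hq (algebraMap (RatFunc K) M t) ∈ ratEquiv X :=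
      AddSubgroup.subset_closure ⟨M, inferInstance, inferInstance, hM, q, hq, _,
        (map_ne_zero _).2 ht0, rfl⟩
    let w0 : Place K (RatFunc K) := zeroPlace K (RatFunc.X : RatFunc K) transcendental_X
      RatFunc.adjoin_X
    let w1 : Place K (RatFunc K) := zeroPlace K (RatFunc.X⁻¹ : RatFunc K) transcendental_X_inv
      adjoin_X_inv
    have h0 : w0.A.valuation (RatFunc.X : RatFunc K) < 1 :=
      val_zeroPlace _ transcendental_X RatFunc.adjoin_X
    have h1 : w1.A.valuation (RatFunc.X⁻¹ : RatFunc K) < 1 :=
      val_zeroPlace _ transcendental_X_inv adjoin_X_inv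
    have hne : w0 ≠ w1 := by
      intro hw
      rw [← hw, map_inv₀] at h1
      have h2 : 0 < w0.A.valuation (RatFunc.X : RatFunc K) :=
        zero_lt_iff.2 ((Valuation.ne_zero_iff _).2 ht0)
      exact absurd h0 (not_lt.2 ((inv_lt_one₀ h2).1 h1).le)
    have e0 : w0.ord t = 1 := Place.ord_t w0 transcendental_X RatFunc.adjoin_X h0
    have e1 : w1.ord t = -1 := by
      have := Place.ord_t_inv w1 transcendental_X_inv adjoin_X_inv h1
      rwa [inv_inv] at this
    have e1' : w1.ord t⁻¹ = 1 := Place.ord_t w1 transcendental_X_inv adjoin_X_inv h1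
    have d0 : w0.deg = 1 := deg_zero w0 h0 RatFunc.adjoin_X
    have d1 : w1.deg = 1 := deg_zero w1 h1 adjoin_X_inv
    have hsupp : ∀ w : Place K M, w ∉ lying hE hM w0 → w ∉ lying hE hM w1 →
        w.ord (algebraMap (RatFunc K) M t) = 0 := by
      intro w hw0 hw1
      rw [mem_lying] at hw0 hw1
      have h2 := w.pos_under hE hM ht0
      have h3 := w.nonneg_under hE hM ht0
      have h4 : (w.under (RatFunc K)).ord t = 0 := by
        rcases lt_trichotomy ((w.under (RatFunc K)).A.valuation (RatFunc.X : RatFunc K)) 1 with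
          hlt | heq | hgt
        · exact absurd (Place.unique_zero RatFunc.adjoin_X _ w0 hlt h0) hw0
        · exact Place.ord_of_unit _ heq
        · refine absurd (Place.unique_zero adjoin_X_inv _ w1 ?_ h1) hw1
          rw [map_inv₀]
          exact inv_lt_one_of_one_lt₀ hgt
      rw [h4] at h2 h3
      have h5 : 0 ≤ w.ord (algebraMap (RatFunc K) M t) := h3.2 le_rfl
      have h6 : ¬ 0 < w.ord (algebraMap (RatFunc K) M t) := fun h => lt_irrefl _ (h2.1 h)
      omega
    have hdisj : Disjoint (lying hE hM w0) (lying hE hM w1) := by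
      rw [Finset.disjoint_left]
      intro w h3 h4
      rw [mem_lying] at h3 h4
      exact hne (h3.symm.trans h4)
    have hsum : curveCycle X q hq (algebraMap (RatFunc K) M t) =
        ∑ w ∈ lying hE hM w0, w.ord (algebraMap (RatFunc K) M t) • ptCycle X (red w q hq.1)
          (red_isPt X w q hq) +
        ∑ w ∈ lying hE hM w1, w.ord (algebraMap (RatFunc K) M t) • ptCycle X (red w q hq.1)
          (red_isPt X w q hq) := by
      rw [curveCycle, finsum_eq_sum_of_support_subset
        (s := lying hE hM w0 ∪ lying hE hM w1), Finset.sum_union hdisj]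
      intro w hw
      rw [Function.mem_support] at hw
      by_contra hcon
      rw [Finset.mem_coe, Finset.mem_union, not_or] at hcon
      exact hw (by rw [hsupp w hcon.1 hcon.2, zero_smul])
    have htow : ∀ a : K, algebraMap (RatFunc K) M (algebraMap K (RatFunc K) a) =
        algebraMap K M a := fun a => (IsScalarTower.algebraMap_apply K (RatFunc K) M a).symm
    have s0 := sum_lying_equiv X hE hM w0 d0 ht0 ht0 (by rw [e0]; exact one_pos) hx ht hz x' z' θ
      1 q hq (fun i => by
        change algebraMap (RatFunc K) M (algebraMap K (RatFunc K) (x i) +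
          t * algebraMap K (RatFunc K) (x' i)) + θ * algebraMap (RatFunc K) M
          (algebraMap K (RatFunc K) (z i) + t * algebraMap K (RatFunc K) (z' i)) = _
        rw [map_add, map_add, map_mul, map_mul, htow, htow, htow, htow, one_mul])
    have s1 := sum_lying_equiv X hE hM w1 d1 ht0 (inv_ne_zero ht0) (by rw [e1']; exact one_pos)
      hx' ht' hz' x z θ (algebraMap (RatFunc K) M t) q hq (fun i => by
        change algebraMap (RatFunc K) M (algebraMap K (RatFunc K) (x i) +
          t * algebraMap K (RatFunc K) (x' i)) + θ * algebraMap (RatFunc K) M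
          (algebraMap K (RatFunc K) (z i) + t * algebraMap K (RatFunc K) (z' i)) = _
        have h2 : algebraMap (RatFunc K) M t ≠ 0 := (map_ne_zero _).2 ht0
        have h3 := mul_inv_cancel₀ h2
        rw [map_add, map_add, map_mul, map_mul, htow, htow, htow, htow, map_inv₀]
        linear_combination -(algebraMap K M (x i) + θ * algebraMap K M (z i)) * h3)
    rw [e0, mul_one] at s0
    rw [e1, mul_neg, mul_one] at s1
    refine ⟨Module.finrank (RatFunc K) M, ?_, ?_⟩
    · rw [hrank, Nat.coprime_comm]
      exact (Nat.Prime.coprime_iff_not_dvd hl).2 hQl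
    · rw [hsum] at hqc
      have h2 := sub_mem hqc (add_mem s0 s1)
      have h3 : ∀ a b c d : ClosedPoint X →₀ ℤ, ∀ m : ℤ,
          a + b - ((a - m • c) + (b - (-m) • d)) = m • (c - d) := by
        intro a b c d m
        rw [neg_smul, smul_sub]
        abel
      rw [h3] at h2
      exact h2

end pencil

end ZC
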