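import Pool.Agent.Helper72.HY.Mod
import Pool.Agent.Helper72.HY.Pencil

/-!
# Families of hypersurfaces at the primes which do not divide the degree
-/

set_option autoImplicit false

open MvPolynomial

namespace ZC

universe u

open Pool.Agent.Helper91.ZC

/-- A hypersurface of degree prime to `l` has a point over an extension of degree prime to `l`. -/
theorem exists_pt_primeTo {E : Type u} [Field E] {l : ℕ} (hl : l.Prime) {n : ℕ}
    (X : ProjVar E n 1) (hn : 1 ≤ n) (hd : ¬ l ∣ X.d 0) :
    ∃ (M : Type u) (_ : Field M) (_ : Algebra E M), FiniteDimensional E M ∧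
      (Module.finrank E M).Coprime l ∧ ∃ x : Fin (n + 1) → M, X.IsPt x := by
  classical
  set i₀ : Fin (n + 1) := ⟨0, by omega⟩ with hi₀
  set i₁ : Fin (n + 1) := ⟨1, by omega⟩ with hi₁
  have h01 : i₀ ≠ i₁ := by
    intro h
    have := congrArg Fin.val h
    simp [hi₀, hi₁] at this
  set x : Fin (n + 1) → E := fun i => if i = i₀ then 1 else 0 with hx
  set z : Fin (n + 1) → E := fun i => if i = i₁ then 1 else 0 with hz
  obtain ⟨f1, f2, f3⟩ := onLine_facts (X.hom 0) x z
  by_cases hfz : eval z (X.form 0) = 0
  · refine ⟨E, inferInstance, inferInstance, inferInstance, ?_, z, fun h => ?_, fun i => ?_⟩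
    · rw [Module.finrank_self]
      exact Nat.coprime_one_left l
    · have h1 := congrFun h i₁
      simp [hz] at h1
    · rw [Subsingleton.elim i 0]
      exact hfz
  · set P := onLine x z (X.form 0) with hP
    have hcoef : P.coeff (X.d 0) ≠ 0 := by rw [f2]; exact hfz
    have hP0 : P ≠ 0 := fun h => hcoef (by rw [h, Polynomial.coeff_zero])
    have hnat : P.natDegree = X.d 0 := le_antisymm f1 (Polynomial.le_natDegree_of_ne_zero hcoef)
    obtain ⟨Q, hQ, hQP, hQl⟩ := exists_factor_primeTo P hP0 (by rw [hnat]; exact hd)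
    have hfact : Fact (Irreducible Q) := ⟨hQ⟩
    have hfin : FiniteDimensional E (AdjoinRoot Q) := (AdjoinRoot.powerBasis hQ.ne_zero).finite
    have hrank : Module.finrank E (AdjoinRoot Q) = Q.natDegree := by
      rw [(AdjoinRoot.powerBasis hQ.ne_zero).finrank, AdjoinRoot.powerBasis_dim]
    have hθ : Polynomial.aeval (AdjoinRoot.root Q) P = 0 := by
      obtain ⟨R, hR⟩ := hQP
      rw [hR, map_mul, AdjoinRoot.aeval_eq, AdjoinRoot.mk_self, zero_mul]
    refine ⟨AdjoinRoot Q, inferInstance, inferInstance, hfin, ?_, fun i =>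
      algebraMap E (AdjoinRoot Q) (x i) + AdjoinRoot.root Q * algebraMap E (AdjoinRoot Q) (z i),
      fun h => ?_, fun i => ?_⟩
    · rw [hrank, Nat.coprime_comm]
      exact (Nat.Prime.coprime_iff_not_dvd hl).2 hQl
    · have h1 := congrFun h i₀
      simp [hx, hz, h01] at h1
    · rw [Subsingleton.elim i 0]
      have h1 := aeval_onLine x z (X.form 0) (AdjoinRoot.root Q)
      rw [← hP, hθ] at h1
      exact h1

end ZC

namespace ZF

open ZC

universe u

section

variable {K : Type u} [Field K] {V ι R : Type} {p : V → ι} {n r : ℕ}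

/-- The value of the form of a fibre. -/
theorem aeval_fib (X : MVar K (addBlock n p) (Fin r ⊕ R)) {L : Type u} [Field L] [Algebra K L]
    (y : V → L) (i : Fin r) {S : Type u} [CommRing S] [Algebra K S] [Algebra L S]
    [IsScalarTower K L S] (x : Fin (n + 1) → S) :
    aeval x ((fib X y).form i) =
      aeval (Sum.elim x fun v => algebraMap L S (y v)) (X.form (Sum.inl i)) := by
  have h2 : (aeval (Sum.elim x fun v => algebraMap L S (y v)) :
      MvPolynomial (Fin (n + 1) ⊕ V) K →ₐ[K] S) =
      ((aeval x : MvPolynomial (Fin (n + 1)) L →ₐ[L] S).restrictScalars K).comp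
        (aeval (Sum.elim MvPolynomial.X (fun v => C (y v)))) := by
    apply MvPolynomial.algHom_ext
    rintro (a | v)
    · simp
    · simp
  rw [h2]
  rfl

/-- A flex line of a fibre, seen over an extension. -/
theorem tan_fib {X : MVar K (addBlock n p) (Fin 1 ⊕ R)} {L : Type u} [Field L] [Algebra K L]
    (y : V → L) {M : Type u} [Field M] [Algebra L M] [Algebra K M] [IsScalarTower K L M]
    {x z : Fin (n + 1) → M} {e : M} (ht : Tan (fib X y) x z e) {N : Type u} [Field N]
    [Algebra K N] [Algebra L N] [Algebra M N] [IsScalarTower K L N] [IsScalarTower L M N] :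
    Tan (fib X fun v => algebraMap L N (y v)) (fun i => algebraMap M N (x i))
      (fun i => algebraMap M N (z i)) (algebraMap M N e) := by
  intro S iS iA iA' iT a b
  have hA : iA = iA' := Algebra.algebra_ext _ _ fun r =>
    @IsScalarTower.algebraMap_apply N N S _ _ _ _ iA' iA iT r
  subst hA
  let jK : Algebra K S := ((algebraMap N S).comp (algebraMap K N)).toAlgebra
  let jL : Algebra L S := ((algebraMap N S).comp (algebraMap L N)).toAlgebra
  let jM : Algebra M S := ((algebraMap N S).comp (algebraMap M N)).toAlgebra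
  have tKN : IsScalarTower K N S := IsScalarTower.of_algebraMap_eq fun a => rfl
  have tKL : IsScalarTower K L S := IsScalarTower.of_algebraMap_eq fun a => by
    change algebraMap N S (algebraMap K N a) = algebraMap N S (algebraMap L N (algebraMap K L a))
    rw [← IsScalarTower.algebraMap_apply K L N]
  have tLM : IsScalarTower L M S := IsScalarTower.of_algebraMap_eq fun a => by
    change algebraMap N S (algebraMap L N a) = algebraMap N S (algebraMap M N (algebraMap L M a))
    rw [← IsScalarTower.algebraMap_apply L M N]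
  have h1 := ht S a b
  rw [aeval_fib (S := S)] at h1 ⊢
  exact h1

end

section

variable {K : Type u} [Field K] {V ι R : Type} [Finite V] {p : V → ι} {n : ℕ}
  {X : MVar K (addBlock n p) (Fin 1 ⊕ R)} {B : MVar K p R}

/-- **The difference of two points of a fibre.** -/
theorem fib_at (h : X.IsOver B) {l : ℕ} (hl : l.Prime) (hK : WTLup l K)
    (hd : ¬ l ∣ X.deg (Sum.inl 0) none) (hn : flexCost l (X.deg (Sum.inl 0) none) < n)
    {L : Type u} [Field L] [Algebra K L] [FiniteDimensional K L] (x x' : Fin (n + 1) → L)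
    (y : V → L) (hx : X.IsPt (Sum.elim x y)) (hx' : X.IsPt (Sum.elim x' y)) :
    ∃ N : ℕ, N.Coprime l ∧
      (N : ℤ) • (ptCycle X (Sum.elim x y) hx - ptCycle X (Sum.elim x' y) hx') ∈ ratEquiv X := by
  have hd0 : 0 < X.deg (Sum.inl 0) none := Nat.pos_of_ne_zero fun h0 => hd (by
    rw [h0]
    exact dvd_zero l)
  have hy : B.IsPt y := h.isPt hx
  have hL1 : WTLupI l 1 L := (wtlupI_one.2 hK).of_finite
  obtain ⟨M, iF, iA, hLM, hcop, z, e, hz, ht⟩ :=
    exists_tan_at (wtlupI_one.1 hL1) (fib X y) hd0 hn x (fib_isPt hx)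
  let jK : Algebra K M := ((algebraMap L M).comp (algebraMap K L)).toAlgebra
  have tM : IsScalarTower K L M := IsScalarTower.of_algebraMap_eq fun a => rfl
  have hKM : FiniteDimensional K M := FiniteDimensional.trans K L M
  have hM1 : WTLupI l 1 M := (wtlupI_one.2 hK).of_finite
  have hxM' : X.IsPt (Sum.elim (fun i => algebraMap L M (x' i)) fun v => algebraMap L M (y v)) := by
    have h1 := isPt_comp X (IsScalarTower.toAlgHom K L M) hx'
    have h2 : (fun v => (IsScalarTower.toAlgHom K L M) (Sum.elim x' y v)) =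
        Sum.elim (fun i => algebraMap L M (x' i)) fun v => algebraMap L M (y v) := by
      funext v
      rcases v with v | v <;> rfl
    rwa [h2] at h1
  obtain ⟨N, kF, kA, hMN, hcop', z', e', hz', ht'⟩ :=
    exists_tan_at (wtlupI_one.1 hM1) (fib X fun v => algebraMap L M (y v)) hd0 hn _
      (fib_isPt hxM')
  let kK : Algebra K N := ((algebraMap M N).comp (algebraMap K M)).toAlgebra
  let kL : Algebra L N := ((algebraMap M N).comp (algebraMap L M)).toAlgebra
  have tKMN : IsScalarTower K M N := IsScalarTower.of_algebraMap_eq fun a => rfl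
  have tLMN : IsScalarTower L M N := IsScalarTower.of_algebraMap_eq fun a => rfl
  have tKLN : IsScalarTower K L N := IsScalarTower.of_algebraMap_eq fun a => rfl
  have hLN : FiniteDimensional L N := FiniteDimensional.trans L M N
  have hKN : FiniteDimensional K N := FiniteDimensional.trans K L N
  set yN : V → N := fun v => algebraMap L N (y v) with hyN
  have hyN' : B.IsPt yN := isPt_comp B (IsScalarTower.toAlgHom K L N) hy
  -- the two points over `N`
  have key : ∀ {x : Fin (n + 1) → L} (hx : X.IsPt (Sum.elim x y)),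
      ∃ hxN : X.IsPt (Sum.elim (fun i => algebraMap L N (x i)) yN),
        ptCycle X _ hxN = (Module.finrank L N : ℤ) • ptCycle X (Sum.elim x y) hx := by
    intro x hx
    have h1 := isPt_comp X (IsScalarTower.toAlgHom K L N) hx
    have h2 : (fun v => (IsScalarTower.toAlgHom K L N) (Sum.elim x y v)) =
        Sum.elim (fun i => algebraMap L N (x i)) yN := by
      funext v
      rcases v with v | v <;> rfl
    have h3 : X.IsPt (Sum.elim (fun i => algebraMap L N (x i)) yN) := h2 ▸ h1
    refine ⟨h3, ?_⟩
    rw [← ptCycle_extend X (L' := N) hx h1]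
    exact ptCycle_of_eq X h3 h1 h2.symm
  obtain ⟨hxN, e1⟩ := key hx
  obtain ⟨hxN', e2⟩ := key hx'
  have t1 : Tan (fib X yN) (fun i => algebraMap L N (x i)) (fun i => algebraMap M N (z i))
      (algebraMap M N e) := tan_fib y ht
  have t2 : Tan (fib X yN) (fun i => algebraMap L N (x' i)) z' e' := by
    have h1 := tan_fib (N := N) (fun v => algebraMap L M (y v)) ht'
    exact h1
  have z1 : ∀ a : N, (fun i => algebraMap M N (z i)) ≠ a • fun i => algebraMap L N (x i) := by
    intro a ha
    obtain ⟨i, j, hij⟩ := indep_of (x := fun i => algebraMap L M (x i)) (fun h0 => by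
      apply (fib_isPt hx).1
      funext i
      have h1 := congrFun h0 i
      simpa using h1) hz
    apply hij
    apply (algebraMap M N).injective
    have h1 : algebraMap M N (z i) = a * algebraMap M N (algebraMap L M (x i)) := congrFun ha i
    have h2 : algebraMap M N (z j) = a * algebraMap M N (algebraMap L M (x j)) := congrFun ha j
    rw [map_sub, map_mul, map_mul, h1, h2, map_zero]
    ring
  have z2 : ∀ a : N, z' ≠ a • fun i => algebraMap L N (x' i) := hz'
  obtain ⟨m, hm, h1⟩ := pencil hl (fib X yN) hd (fib_isPt hxN) (fib_isPt hxN') t1 t2 z1 z2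
  have h2 := ratEquiv_le_inc h yN hyN' h1
  rw [AddSubgroup.mem_comap, map_zsmul, map_sub, incZ_ptCycle h yN hyN' (M := N),
    incZ_ptCycle h yN hyN' (M := N)] at h2
  refine ⟨m * Module.finrank L N, Nat.Coprime.mul_left hm ?_, ?_⟩
  · rw [← Module.finrank_mul_finrank L M N]
    exact Nat.Coprime.mul_left hcop hcop'
  · have h3 : ((m * Module.finrank L N : ℕ) : ℤ) •
        (ptCycle X (Sum.elim x y) hx - ptCycle X (Sum.elim x' y) hx') =
        (m : ℤ) • (ptCycle X _ hxN - ptCycle X _ hxN') := by
      rw [e1, e2, Nat.cast_mul, mul_smul, smul_sub (Module.finrank L N : ℤ)]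
    rw [h3]
    exact h2

/-- **Families of hypersurfaces at a prime which does not divide the degree.** -/
theorem loc_of_hyp (h : X.IsOver B) {l : ℕ} (hl : l.Prime) (hK : WTLup l K)
    (hd : ¬ l ∣ X.deg (Sum.inl 0) none) (hn : flexCost l (X.deg (Sum.inl 0) none) < n) :
    Loc l h where
  pt L _ _ _ y hy := by
    obtain ⟨M, iF, iA, h1, h2, x, hx⟩ := exists_pt_primeTo hl (fib X y) (by omega) hd
    let jK : Algebra K M := ((algebraMap L M).comp (algebraMap K L)).toAlgebra
    have tM : IsScalarTower K L M := IsScalarTower.of_algebraMap_eq fun a => rfl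
    exact ⟨M, iF, iA, jK, tM, h1, h2, x, isPt_of_fib h y hy x hx⟩
  eq L _ _ _ x x' y hx hx' := fib_at h hl hK hd hn x x' y hx hx'
  lift E _ _ hE y hy g hg := by
    obtain ⟨M, iF, iA, h1, h2, x, hx⟩ := exists_pt_primeTo hl (fib X y) (by omega) hd
    let jK : Algebra K M := ((algebraMap E M).comp (algebraMap K E)).toAlgebra
    have tM : IsScalarTower K E M := IsScalarTower.of_algebraMap_eq fun a => rfl
    obtain ⟨c, hc, h3⟩ := norm_mem_lifts h hE y hy x hx (algebraMap E M g)
      ((_root_.map_ne_zero _).2 hg)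
    rw [Algebra.norm_algebraMap] at h3
    exact ⟨Module.finrank E M, h2, c, hc, h3⟩

end

end ZF
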