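import Pool.Agent.Helper89.IX.Transfer

/-!
# Renumbering the variables, the projective spaces and the forms
-/

set_option autoImplicit false

open MvPolynomial ZC TensorProduct

namespace ZF

universe u

/-- `X'` is `X` with the variables, the projective spaces and the forms renumbered. -/
structure Reindex {K : Type u} [Field K] {V ι R V' ι' R' : Type} {p : V → ι} {p' : V' → ι'}
    (X : MVar K p R) (X' : MVar K p' R') : Type where
  /-- the variables -/
  e : V' ≃ V
  /-- the projective spaces -/
  f : ι' ≃ ι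
  /-- the forms -/
  g : R' ≃ R
  hp : ∀ v, p (e v) = f (p' v)
  hform : ∀ i, X.form (g i) = rename e (X'.form i)

section

variable {K : Type u} [Field K] {V ι R V' ι' R' : Type} {p : V → ι} {p' : V' → ι'}
  {X : MVar K p R} {X' : MVar K p' R'}

/-- The inverse renumbering. -/
def Reindex.symm (E : Reindex X X') : Reindex X' X where
  e := E.e.symm
  f := E.f.symm
  g := E.g.symm
  hp v := by
    apply E.f.injective
    rw [← E.hp, E.e.apply_symm_apply, E.f.apply_symm_apply]
  hform i := by
    have h := E.hform (E.g.symm i)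
    rw [E.g.apply_symm_apply] at h
    rw [h, rename_rename]
    have : (E.e.symm : V → V') ∘ E.e = id := funext fun v => E.e.symm_apply_apply v
    rw [this, rename_id, AlgHom.id_apply]

/-- Renumberings and base change. -/
noncomputable def Reindex.bc (E : Reindex X X') (L : Type u) [Field L] [Algebra K L] :
    Reindex (X.bc L) (X'.bc L) where
  e := E.e
  f := E.f
  g := E.g
  hp := E.hp
  hform i := by
    change MvPolynomial.map (algebraMap K L) (X.form (E.g i)) =
      rename E.e (MvPolynomial.map (algebraMap K L) (X'.form i))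
    rw [E.hform i, map_rename]

theorem Reindex.isPt (E : Reindex X X') {L : Type*} [Field L] [Algebra K L] {x : V → L}
    (hx : X.IsPt x) : X'.IsPt fun v => x (E.e v) := by
  refine ⟨fun j => ?_, fun i => ?_⟩
  · obtain ⟨v, hv, h0⟩ := hx.1 (E.f j)
    refine ⟨E.e.symm v, ?_, ?_⟩
    · apply E.f.injective
      rw [← E.hp, E.e.apply_symm_apply, hv]
    · change x (E.e (E.e.symm v)) ≠ 0
      rw [E.e.apply_symm_apply]
      exact h0
  · have h1 := hx.2 (E.g i)
    rw [E.hform i, aeval_rename] at h1
    exact h1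

theorem Reindex.coordField_eq (E : Reindex X X') {L : Type*} [Field L] [Algebra K L]
    (x : V → L) : coordField K p' (fun v => x (E.e v)) = coordField K p x := by
  rw [coordField, coordField]
  congr 1
  ext z
  constructor
  · rintro ⟨a, b, hab, rfl⟩
    exact ⟨E.e a, E.e b, by rw [E.hp, E.hp, hab], rfl⟩
  · rintro ⟨a, b, hab, rfl⟩
    refine ⟨E.e.symm a, E.e.symm b, ?_, by
      rw [E.e.apply_symm_apply, E.e.apply_symm_apply]⟩
    apply E.f.injective
    rw [← E.hp, ← E.hp, E.e.apply_symm_apply, E.e.apply_symm_apply, hab]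

/-- The closed point of `X'`. -/
noncomputable def Reindex.pt (E : Reindex X X') : ClosedPoint X → ClosedPoint X' :=
  Quotient.map (fun x => ⟨fun v => x.1 (E.e v), E.isPt x.2⟩) (by
    rintro x y ⟨s, c, hc, h⟩
    refine ⟨s, fun j => c (E.f j), fun j => hc _, fun v => ?_⟩
    change y.1 (E.e v) = c (E.f (p' v)) * s (x.1 (E.e v))
    rw [h, E.hp])

/-- The map on zero-cycles. -/
noncomputable def Reindex.Z (E : Reindex X X') : (ClosedPoint X →₀ ℤ) →+ (ClosedPoint X' →₀ ℤ) :=
  Finsupp.mapDomain.addMonoidHom E.pt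

theorem Reindex.Z_single (E : Reindex X X') (P : ClosedPoint X) (m : ℤ) :
    E.Z (Finsupp.single P m) = Finsupp.single (E.pt P) m := Finsupp.mapDomain_single

theorem Reindex.Z_ptCycle (E : Reindex X X') {L : Type*} [Field L] [Algebra K L]
    (x : V → L) (hx : X.IsPt x) :
    E.Z (ptCycle X x hx) = ptCycle X' (fun v => x (E.e v)) (E.isPt hx) := by
  classical
  by_cases ha : Algebra.IsAlgebraic K L
  · rw [ptCycle, ptCycle, dif_pos ha, dif_pos ha, E.Z_single, E.coordField_eq]
    rfl
  · rw [ptCycle, ptCycle, dif_neg ha, dif_neg ha, map_zero]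

theorem Reindex.symm_pt (E : Reindex X X') (P : ClosedPoint X) : E.symm.pt (E.pt P) = P := by
  induction P using Quotient.inductionOn with
  | h y =>
    change Quotient.mk _ _ = Quotient.mk _ _
    congr 1
    apply Subtype.ext
    funext v
    change y.1 (E.e (E.e.symm v)) = y.1 v
    rw [E.e.apply_symm_apply]

theorem Reindex.symm_Z (E : Reindex X X') (c : ClosedPoint X →₀ ℤ) : E.symm.Z (E.Z c) = c := by
  induction c using Finsupp.induction_linear with
  | zero => simp only [map_zero]
  | add f g hf hg => rw [map_add, map_add, hf, hg]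
  | single P a => rw [E.Z_single, E.symm.Z_single, E.symm_pt]

theorem Reindex.Z_bcPt (E : Reindex X X') (K' : Type u) [Field K'] [Algebra K K'] {L : Type u}
    [Field L] [Algebra K L] [FiniteDimensional K L] (x : V → L) (hx : X.IsPt x) :
    (E.bc K').Z (bcPt X K' x hx) = bcPt X' K' (fun v => x (E.e v)) (E.isPt hx) := by
  unfold bcPt specCycle
  have := finite_spec (K := K) (K' := K') (L := L)
  rw [AddMonoidHom.map_finsum]
  · refine finsum_congr fun P => ?_
    rw [map_nsmul]
    congr 1
    exact (E.bc K').Z_ptCycle _ _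
  · exact Set.toFinite _

end

section

variable {K : Type u} [Field K] {V ι R V' ι' R' : Type} [Finite V] [Finite V'] {p : V → ι}
  {p' : V' → ι'} {X : MVar K p R} {X' : MVar K p' R'}

theorem Reindex.Z_bcZ (E : Reindex X X') (K' : Type u) [Field K'] [Algebra K K']
    (c : ClosedPoint X →₀ ℤ) : (E.bc K').Z (bcZ X K' c) = bcZ X' K' (E.Z c) := by
  induction c using Finsupp.induction_linear with
  | zero => simp only [map_zero]
  | add f g hf hg => rw [map_add, map_add, map_add, hf, hg, map_add]
  | single P a =>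
    have h1 : Finsupp.single P a = a • Finsupp.single P (1 : ℤ) := by
      rw [Finsupp.smul_single, smul_eq_mul, mul_one]
    have hfd := coordField_finite (p := p) P.out.1
    rw [h1, map_zsmul, map_zsmul, map_zsmul, map_zsmul, ← single_out P,
      bcZ_ptCycle X K' _ _ (coordField_nrm P.out), E.Z_bcPt, E.Z_ptCycle,
      bcZ_ptCycle X' K' _ _ (by rw [E.coordField_eq]; exact coordField_nrm P.out)]

omit [Finite V'] in
theorem Reindex.degZ (E : Reindex X X') (c : ClosedPoint X →₀ ℤ) :
    ZF.degZ X' (E.Z c) = ZF.degZ X c := by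
  induction c using Finsupp.induction_linear with
  | zero => simp only [map_zero]
  | add f g hf hg => rw [map_add, map_add, map_add, hf, hg]
  | single P a =>
    have hfd := coordField_finite (p := p) P.out.1
    rw [single_zsmul, map_zsmul, map_zsmul, map_zsmul, ← single_out P, E.Z_ptCycle,
      degZ_ptCycle, degZ_ptCycle]

theorem Reindex.ptCycle_red (E : Reindex X X') {F : Type u} [Field F] [Algebra K F]
    (w : Place K F) (x : V → F) (hx : X.IsPt x) :
    ptCycle X' (fun v => red w p x hx.1 (E.e v)) (E.isPt (red_isPt X w x hx)) =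
      ptCycle X' (red w p' (fun v => x (E.e v)) (E.isPt hx).1)
        (red_isPt X' w (fun v => x (E.e v)) (E.isPt hx)) := by
  set u : ι' → V := fun j => (exists_max w p x hx.1 (E.f j)).choose with hu
  have hu1 : ∀ j, p (u j) = E.f j := fun j => (exists_max w p x hx.1 (E.f j)).choose_spec.1
  have hu2 : ∀ j, x (u j) ≠ 0 := fun j => (exists_max w p x hx.1 (E.f j)).choose_spec.2.1
  have hu3 : ∀ v : V', x (E.e v) / x (u (p' v)) ∈ w.A := fun v =>
    (exists_max w p x hx.1 (E.f (p' v))).choose_spec.2.2 (E.e v) (E.hp v)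
  obtain ⟨c, hc, h1⟩ := red_eq w (fun v => x (E.e v)) (E.isPt hx).1 (fun j => x (u j))
    (fun v => ⟨x (E.e v) / x (u (p' v)), hu3 v⟩)
    (fun v => (mul_div_cancel₀ _ (hu2 (p' v))).symm) (fun j => by
      have h3 : p' (E.e.symm (u j)) = j := by
        apply E.f.injective
        rw [← E.hp, E.e.apply_symm_apply, hu1]
      refine ⟨E.e.symm (u j), h3, ?_⟩
      have : (⟨x (E.e (E.e.symm (u j))) / x (u (p' (E.e.symm (u j)))),
          hu3 (E.e.symm (u j))⟩ : w.A) = 1 := Subtype.ext (by
        change x (E.e (E.e.symm (u j))) / x (u (p' (E.e.symm (u j)))) = 1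
        rw [h3, E.e.apply_symm_apply]
        exact div_self (hu2 j))
      rw [this]
      exact isUnit_one)
  refine ptCycle_congr X' AlgEquiv.refl c hc _ _ fun v => ?_
  rw [h1 v]
  congr 1
  change _ = red w p x hx.1 (E.e v)
  have h4 : ∀ (j : ι) (hj : j = p (E.e v)) (hm : x (E.e v) /
      x (exists_max w p x hx.1 j).choose ∈ w.A),
      IsLocalRing.residue w.A ⟨x (E.e v) / x (exists_max w p x hx.1 j).choose, hm⟩ =
        red w p x hx.1 (E.e v) := by
    intro j hj hm
    subst hj
    rfl
  exact h4 _ (E.hp v).symm (hu3 v)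

theorem Reindex.Z_curveCycle (E : Reindex X X') {F : Type u} [Field F] [Algebra K F]
    (hF : IsCurveField K F) (x : V → F) (hx : X.IsPt x) (g : F) :
    E.Z (curveCycle X x hx g) = curveCycle X' (fun v => x (E.e v)) (E.isPt hx) g := by
  rw [curveCycle, curveCycle, AddMonoidHom.map_finsum _ (finite_support hF g _)]
  refine finsum_congr fun w => ?_
  rw [map_zsmul, E.Z_ptCycle, E.ptCycle_red w x hx]

theorem Reindex.ratEquiv_le (E : Reindex X X') : ratEquiv X ≤ (ratEquiv X').comap E.Z := by
  rw [ratEquiv, AddSubgroup.closure_le]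
  rintro c ⟨F, iF, iA, hF, x, hx, g, hg, rfl⟩
  exact AddSubgroup.subset_closure ⟨F, iF, iA, hF, _, E.isPt hx, g, hg,
    E.Z_curveCycle hF x hx g⟩

/-- The map on Chow groups. -/
noncomputable def Reindex.ch (E : Reindex X X') : CH0 X →+ CH0 X' :=
  QuotientAddGroup.map (ratEquiv X) (ratEquiv X') E.Z E.ratEquiv_le

theorem Reindex.ch_mk (E : Reindex X X') (c : ClosedPoint X →₀ ℤ) :
    E.ch (CH0.mk X c) = CH0.mk X' (E.Z c) := rfl

theorem Reindex.symm_ch (E : Reindex X X') (c : CH0 X) : E.symm.ch (E.ch c) = c := by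
  obtain ⟨C, rfl⟩ := CH0.mk_surjective X c
  rw [E.ch_mk, E.symm.ch_mk, E.symm_Z]

theorem Reindex.deg_ch (E : Reindex X X') (c : CH0 X) : CH0.deg X' (E.ch c) = CH0.deg X c := by
  obtain ⟨C, rfl⟩ := CH0.mk_surjective X c
  rw [E.ch_mk, CH0.deg_mk, CH0.deg_mk, E.degZ]

theorem SameMod.map {G H : Type u} [AddCommGroup G] [AddCommGroup H] (φ : G →+ H) {m : ℕ}
    {a b : G} (h : SameMod m a b) : SameMod m (φ a) (φ b) := by
  obtain ⟨g, hg⟩ := h
  exact ⟨φ g, by rw [← map_sub, hg, map_nsmul]⟩

end

section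

variable {F k : Type u} [Field F] [Field k] [Algebra F k] {V ι R V' ι' R' : Type} [Finite V]
  [Finite V'] {p : V → ι} {p' : V' → ι'} {X : MVar k p R} {X' : MVar k p' R'}

/-- The family on `X'` of a family on `X`. -/
noncomputable def LocFam.re (E : Reindex X X') (z : LocFam F X) : LocFam F X' :=
  fun v m => (E.bc v.Completion).ch (z v m)

theorem LocFam.CompatOn.re (E : Reindex X X') {Q : ℕ → Prop} {z : LocFam F X}
    (hz : z.CompatOn Q) : (z.re E).CompatOn Q :=
  fun v m m' hm hm' hmm hQ => (hz v m m' hm hm' hmm hQ).map _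

theorem LocFam.OrthOn.re (E : Reindex X X') {Q : ℕ → Prop} {z : LocFam F X}
    (hz : z.OrthOn Q) : (z.re E).OrthOn Q := by
  intro f m hf hm hQ
  rw [← hz f m hf hm hQ]
  refine finsum_congr fun v => ?_
  rw [constPairing, constPairing, LocFam.re, Reindex.deg_ch]

/-- If the family on `X'` is global so is the family on `X`. -/
theorem LocFam.GlobalOn.of_re (E : Reindex X X') {Q : ℕ → Prop} {z : LocFam F X}
    (hz : (z.re E).GlobalOn Q) : z.GlobalOn Q := by
  obtain ⟨Z, hZ, hZz⟩ := hz
  refine ⟨fun m => E.symm.Z (Z m), fun m m' hm hm' hmm hQ => ?_, fun v m hm hQ => ?_⟩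
  · exact (hZ m m' hm hm' hmm hQ).map E.symm.ch
  · have h1 := (hZz v m hm hQ).map (E.bc v.Completion).symm.ch
    rw [LocFam.re, Reindex.symm_ch] at h1
    have h2 : (E.bc v.Completion).symm.ch (bcCl X' v.Completion (Z m)) =
        bcCl X v.Completion (E.symm.Z (Z m)) := by
      rw [bcCl, bcCl, Reindex.ch_mk, ← E.symm.Z_bcZ]
      rfl
    rwa [h2] at h1

end

end ZF
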