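import Pool.Agent.Helper72.HY.Crt
import Pool.Agent.Helper72.HY.Reindex
import Pool.Agent.Helper72.HY.Exist

/-!
# Towers at one prime: the definitions
-/

set_option autoImplicit false

open MvPolynomial ZC

namespace ZF

universe u

/-- The fibres of `X` over `B` contain the lines spanned by two sections given by polynomials in
the coordinates of `B`. -/
def HasLine {K : Type u} [Field K] {V ι R : Type} {p : V → ι} {n r : ℕ}
    (X : MVar K (addBlock n p) (Fin r ⊕ R)) (B : MVar K p R) : Prop :=
  ∃ s s' : Fin (n + 1) → MvPolynomial V K, ∀ (L : Type u) [Field L] [Algebra K L] (y : V → L),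
    B.IsPt y → ∀ a b : L, (a ≠ 0 ∨ b ≠ 0) →
      X.IsPt (Sum.elim (fun i => a * aeval y (s i) + b * aeval y (s' i)) y)

/-- The hypotheses at the prime `l` on a family `X` over `B` of intersections of hypersurfaces:
the fibres are hypersurfaces in `ℙⁿ` of a degree `d` not divisible by `l` with `flexCost l d < n`,
or they are cubics, `l` is odd and `X` has a family of lines, or the condition of the Tsen-Lang
range. -/
structure StepAt (l : ℕ) {K : Type u} [Field K] {V ι R : Type} {p : V → ι} {n r : ℕ}
    (X : MVar K (addBlock n p) (Fin r ⊕ R)) (B : MVar K p R) : Prop where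
  isOver : X.IsOver B
  cond : (r = 1 ∧ ∀ i, ¬ l ∣ X.deg (Sum.inl i) none ∧
      flexCost l (X.deg (Sum.inl i) none) < n) ∨
    (r = 1 ∧ (∀ i, X.deg (Sum.inl i) none = 3) ∧ l ≠ 2 ∧ HasLine X B) ∨
    FamAt (fun l' => l' = l) X B

/-- `X` is obtained from the point by finitely many steps which replace a variety `B` by a family
over `B` with the hypotheses `StepAt l`, or renumber the variables, the projective spaces and the
forms. -/
inductive TowerFor (l : ℕ) {K : Type u} [Field K] :
    ∀ {V ι R : Type} {p : V → ι}, MVar K p R → Prop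
  | point (X : MVar K (id : Empty → Empty) Empty) : TowerFor l X
  | step {V ι R : Type} {p : V → ι} {n r : ℕ} {B : MVar K p R}
      {X : MVar K (addBlock n p) (Fin r ⊕ R)} (hB : TowerFor l B) (h : StepAt l X B) :
      TowerFor l X
  | renumber {V ι R V' ι' R' : Type} {p : V → ι} {p' : V' → ι'} {X : MVar K p R}
      {X' : MVar K p' R'} (hX : TowerFor l X) (E : Reindex X X') : TowerFor l X'

end ZF
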