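import Pool.Agent.Helper72.HY.Cubic
import Pool.Agent.Helper72.HY.TowerDef
import Pool.Agent.Helper89.IX.LiftAt

/-!
# Families of cubics with a family of lines
-/

set_option autoImplicit false

open MvPolynomial ZC

namespace ZF

universe u

section

variable {K : Type u} [Field K] {V ι R : Type} {p : V → ι} {n r : ℕ}
  {X : MVar K (addBlock n p) (Fin r ⊕ R)} {B : MVar K p R}

theorem HasLine.hasSec (h : HasLine X B) : HasSec X B := by
  obtain ⟨s, s', hs⟩ := h
  refine ⟨s, fun L _ _ y hy => ?_⟩
  have h1 := hs L y hy 1 0 (Or.inl one_ne_zero)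
  simpa only [one_mul, zero_mul, add_zero] using h1

theorem HasLine.bc (h : HasLine X B) (L : Type u) [Field L] [Algebra K L] :
    HasLine (X.bc L) (B.bc L) := by
  obtain ⟨s, s', hs⟩ := h
  refine ⟨fun i => MvPolynomial.map (algebraMap K L) (s i),
    fun i => MvPolynomial.map (algebraMap K L) (s' i), fun M _ _ y hy a b hab => ?_⟩
  let _ : Algebra K M := ((algebraMap L M).comp (algebraMap K L)).toAlgebra
  have : IsScalarTower K L M := IsScalarTower.of_algebraMap_eq fun a => rfl
  have h2 := hs M y ((isPt_bc_iff B L M y).1 hy) a b hab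
  refine (isPt_bc_iff X L M _).2 ?_
  have e : ∀ i, aeval y (MvPolynomial.map (algebraMap K L) (s i)) = aeval y (s i) :=
    fun i => aeval_map_algebraMap _ _ _
  have e' : ∀ i, aeval y (MvPolynomial.map (algebraMap K L) (s' i)) = aeval y (s' i) :=
    fun i => aeval_map_algebraMap _ _ _
  simp only [e, e']
  exact h2

end

section

variable {K : Type u} [Field K] {V ι R : Type} [Finite V] {p : V → ι} {n : ℕ}
  {X : MVar K (addBlock n p) (Fin 1 ⊕ R)} {B : MVar K p R}

/-- **Families of cubics with a line at the odd primes.** -/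
theorem loc_of_line (h : X.IsOver B) {l : ℕ} (hl : l.Prime) (hl2 : l ≠ 2)
    (hd : X.deg (Sum.inl 0) none = 3) (hs : HasLine X B) : Loc l h where
  pt L _ _ _ y hy := by
    obtain ⟨s, hs⟩ := hs.hasSec
    refine ⟨L, inferInstance, inferInstance, inferInstance, inferInstance, inferInstance, ?_,
      fun i => aeval y (s i), hs L y hy⟩
    rw [Module.finrank_self]
    exact Nat.coprime_one_left l
  eq L _ _ _ x x' y hx hx' := by
    obtain ⟨s, s', hs⟩ := hs
    have hy : B.IsPt y := h.isPt hx
    have hline : ∀ (M : Type u) [Field M] [Algebra L M] (a b : M), (a ≠ 0 ∨ b ≠ 0) →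
        (fib X y).IsPt fun i => a * algebraMap L M (aeval y (s i)) +
          b * algebraMap L M (aeval y (s' i)) := by
      intro M _ _ a b hab
      let _ : Algebra K M := ((algebraMap L M).comp (algebraMap K L)).toAlgebra
      have hT : IsScalarTower K L M := IsScalarTower.of_algebraMap_eq fun a => rfl
      have hyM : B.IsPt fun v => algebraMap L M (y v) :=
        isPt_comp B (IsScalarTower.toAlgHom K L M) hy
      have h1 := hs M (fun v => algebraMap L M (y v)) hyM a b hab
      have h2 : ∀ g : MvPolynomial V K, aeval (fun v => algebraMap L M (y v)) g =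
          algebraMap L M (aeval y g) := fun g => MvPolynomial.aeval_algebraMap_apply M y g
      simp only [h2] at h1
      refine ⟨fun h0 => ?_, fun i => ?_⟩
      · obtain ⟨v, hv, h3⟩ := h1.1 none
        rcases v with v | v
        · exact h3 (congrFun h0 v)
        · exact absurd hv (by simp [addBlock])
      · rw [aeval_fib]
        exact h1.2 (Sum.inl i)
    have hsp : (fib X y).IsPt fun i => aeval y (s i) := by
      have h1 := hline L 1 0 (Or.inl one_ne_zero)
      simpa only [one_mul, zero_mul, add_zero, Algebra.algebraMap_self, RingHom.id_apply] using h1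
    obtain ⟨m, hm, h1⟩ := cubic_main hl hl2 (X := fib X y) hd (fib_isPt hx) hline hsp
    obtain ⟨m', hm', h2⟩ := cubic_main hl hl2 (X := fib X y) hd (fib_isPt hx') hline hsp
    have h3 := sub_mem (zsmul_mem h1 (m' : ℤ)) (zsmul_mem h2 (m : ℤ))
    have h4 : ((m' : ℤ) • (m : ℤ) • (ZC.ptCycle (fib X y) x (fib_isPt hx) -
        ZC.ptCycle (fib X y) _ hsp) - (m : ℤ) • (m' : ℤ) •
        (ZC.ptCycle (fib X y) x' (fib_isPt hx') - ZC.ptCycle (fib X y) _ hsp)) =
        ((m * m' : ℕ) : ℤ) • (ZC.ptCycle (fib X y) x (fib_isPt hx) -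
          ZC.ptCycle (fib X y) x' (fib_isPt hx')) := by
      rw [smul_smul, smul_smul, mul_comm (m' : ℤ) (m : ℤ), ← smul_sub, Nat.cast_mul]
      congr 1
      abel
    rw [h4] at h3
    have h5 := ratEquiv_le_inc h y hy h3
    rw [AddSubgroup.mem_comap, map_zsmul, map_sub, incZ_ptCycle h y hy (M := L),
      incZ_ptCycle h y hy (M := L)] at h5
    exact ⟨m * m', Nat.Coprime.mul_left hm hm', h5⟩
  lift := liftsAt_of_hasSec h hs.hasSec l

end

end ZF
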