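import Pool.Agent.Helper72.HY.Compositum
import Pool.Agent.Helper89.IX.Transfer

/-!
# Families of varieties at one prime: sections up to a multiple prime to `l`, and the kernel of the
push-forward of zero-cycles
-/

set_option autoImplicit false

open MvPolynomial ZC

namespace ZF

universe u

/-- The properties at the prime `l` of a family `X` over `B`: the fibres over the points of `B`
have points over an extension of degree prime to `l`; the difference of two points of a fibre is
killed by an integer prime to `l`; functions on curves in `B` have powers with exponent prime to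
`l` which lift. -/
structure Loc (l : ℕ) {K : Type u} [Field K] {V ι R : Type} [Finite V] {p : V → ι} {n r : ℕ}
    {X : MVar K (addBlock n p) (Fin r ⊕ R)} {B : MVar K p R} (h : X.IsOver B) : Prop where
  pt : ∀ (L : Type u) [Field L] [Algebra K L] [FiniteDimensional K L] (y : V → L), B.IsPt y →
    ∃ (M : Type u) (_ : Field M) (_ : Algebra L M) (_ : Algebra K M) (_ : IsScalarTower K L M),
      FiniteDimensional L M ∧ (Module.finrank L M).Coprime l ∧
        ∃ x : Fin (n + 1) → M, X.IsPt (Sum.elim x fun v => algebraMap L M (y v))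
  eq : ∀ (L : Type u) [Field L] [Algebra K L] [FiniteDimensional K L] (x x' : Fin (n + 1) → L)
    (y : V → L) (hx : X.IsPt (Sum.elim x y)) (hx' : X.IsPt (Sum.elim x' y)),
    ∃ N : ℕ, N.Coprime l ∧
      (N : ℤ) • (ptCycle X (Sum.elim x y) hx - ptCycle X (Sum.elim x' y) hx') ∈ ratEquiv X
  lift : LiftsAt l h

section

variable {K : Type u} [Field K] {V ι R : Type} [Finite V] {p : V → ι} {n r : ℕ}
  {X : MVar K (addBlock n p) (Fin r ⊕ R)} {B : MVar K p R} {h : X.IsOver B}

theorem Loc.exists_sec {l : ℕ} (hl : l.Prime) (H : Loc l h) (b : ClosedPoint B) :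
    ∃ m : ℕ, m.Coprime l ∧ ∃ c : ClosedPoint X →₀ ℤ,
      pushZ h c = (m : ℤ) • Finsupp.single b 1 ∧
      ∀ (L : Type u) [Field L] [Algebra K L] [FiniteDimensional K L] (q : Fin (n + 1) ⊕ V → L)
        (hq : X.IsPt q), closedPt B (fun v => q (Sum.inr v)) (h.isPt hq) = b →
        ∃ t : ℤ, ptCycle B (fun v => q (Sum.inr v)) (h.isPt hq) = t • Finsupp.single b 1 ∧
          ∃ N : ℕ, N.Coprime l ∧ (N : ℤ) • ((m : ℤ) • ptCycle X q hq - t • c) ∈ ratEquiv X := by
  have hfd := coordField_finite (p := p) b.out.1
  obtain ⟨M, iF, iA, iK, iT, hfin, hcop, x₀, hX₀⟩ :=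
    H.pt (coordField K p b.out.1) (nrm b.out) (nrm_isPt b.out)
  have hKM : FiniteDimensional K M := FiniteDimensional.trans K (coordField K p b.out.1) M
  refine ⟨Module.finrank (coordField K p b.out.1) M, hcop, ptCycle X _ hX₀, ?_, ?_⟩
  · rw [pushZ_ptCycle]
    have h1 := ptCycle_extend B (L' := M) (nrm_isPt b.out) (h.isPt hX₀)
    rw [single_out b] at h1
    exact h1
  · intro L _ _ _ q hq hb
    have hy : B.IsPt fun v => q (Sum.inr v) := h.isPt hq
    obtain ⟨τ, c, hc, hτ⟩ := exists_emb B (fun v => q (Sum.inr v)) hy b.out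
      (hb.trans (Quotient.out_eq b).symm)
    let iL : Algebra (coordField K p b.out.1) L := τ.toRingHom.toAlgebra
    have htL : IsScalarTower K (coordField K p b.out.1) L :=
      IsScalarTower.of_algebraMap_eq fun a => (τ.commutes a).symm
    have e4 : ptCycle B (fun v => q (Sum.inr v)) hy = ptCycle B (fun v => τ (nrm b.out v))
        (isPt_comp B τ (nrm_isPt b.out)) :=
      (ptCycle_congr B AlgEquiv.refl c hc _ _ hτ).symm
    have e5 := ptCycle_tower B τ (nrm_isPt b.out) (isPt_comp B τ (nrm_isPt b.out))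
    rw [single_out] at e5
    refine ⟨Module.finrank (coordField K p b.out.1) L, e4.trans e5, ?_⟩
    have hndvd : ¬ l ∣ Module.finrank (coordField K p b.out.1) M :=
      (Nat.Prime.coprime_iff_not_dvd hl).1 hcop.symm
    obtain ⟨N, jF, jL, jM, hcomm, hLN, hdvd⟩ :=
      exists_compositum_primeTo (K := coordField K p b.out.1) (L := L) (M := M) hndvd
    let jK : Algebra K N := ((algebraMap L N).comp (algebraMap K L)).toAlgebra
    have tKLN : IsScalarTower K L N := IsScalarTower.of_algebraMap_eq fun a => rfl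
    have tKMN : IsScalarTower K M N := IsScalarTower.of_algebraMap_eq fun a => by
      rw [IsScalarTower.algebraMap_apply K (coordField K p b.out.1) M, ← hcomm,
        ← IsScalarTower.algebraMap_apply K (coordField K p b.out.1) L]
      rfl
    have hKN : FiniteDimensional K N := FiniteDimensional.trans K L N
    have hMN : FiniteDimensional M N := FiniteDimensional.right K M N
    let j0 : Algebra (coordField K p b.out.1) N :=
      ((algebraMap L N).comp (algebraMap (coordField K p b.out.1) L)).toAlgebra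
    have t0L : IsScalarTower (coordField K p b.out.1) L N :=
      IsScalarTower.of_algebraMap_eq fun a => rfl
    have t0M : IsScalarTower (coordField K p b.out.1) M N :=
      IsScalarTower.of_algebraMap_eq fun a => hcomm a
    -- the two points over `N`
    have hq1 : X.IsPt fun v => algebraMap L N (q v) := isPt_comp X (IsScalarTower.toAlgHom K L N) hq
    have hq2 : X.IsPt fun v => algebraMap M N
        (Sum.elim x₀ (fun v => algebraMap (coordField K p b.out.1) M (nrm b.out v)) v) :=
      isPt_comp X (IsScalarTower.toAlgHom K M N) hX₀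
    have eq1 : (fun v => algebraMap L N (q v)) = Sum.elim (fun a => algebraMap L N (q (Sum.inl a)))
        (fun v => algebraMap L N (q (Sum.inr v))) := by
      funext v
      rcases v with v | v <;> rfl
    have hq1' : X.IsPt (Sum.elim (fun a => algebraMap L N (q (Sum.inl a)))
        (fun v => algebraMap L N (q (Sum.inr v)))) := eq1 ▸ hq1
    let c' : Option ι → N := fun j => Option.elim j 1 fun i => algebraMap L N (c i)
    have hc' : ∀ j, c' j ≠ 0 := by
      rintro (_ | j)
      · exact one_ne_zero
      · exact (_root_.map_ne_zero _).2 (hc j)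
    have hsc : ∀ v, (Sum.elim (fun a => algebraMap M N (x₀ a))
        (fun v => algebraMap L N (q (Sum.inr v))) : Fin (n + 1) ⊕ V → N) v =
        c' (addBlock n p v) * algebraMap M N
        (Sum.elim x₀ (fun v => algebraMap (coordField K p b.out.1) M (nrm b.out v)) v) := by
      rintro (a | v)
      · exact (one_mul _).symm
      · change algebraMap L N (q (Sum.inr v)) = algebraMap L N (c (p v)) * algebraMap M N
          (algebraMap (coordField K p b.out.1) M (nrm b.out v))
        rw [hτ v, map_mul, ← hcomm]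
        rfl
    have hq2' : X.IsPt (Sum.elim (fun a => algebraMap M N (x₀ a))
        (fun v => algebraMap L N (q (Sum.inr v)))) := isPt_scale X c' hc' hq2 hsc
    obtain ⟨N₁, hN₁, hmem⟩ := H.eq N _ _ _ hq1' hq2'
    have f1 : ptCycle X _ hq1' = (Module.finrank L N : ℤ) • ptCycle X q hq := by
      rw [← ptCycle_extend X (L' := N) hq hq1]
      exact ptCycle_of_eq X hq1' hq1 eq1.symm
    have f2 : ptCycle X _ hq2' = (Module.finrank M N : ℤ) • ptCycle X _ hX₀ := by
      rw [← ptCycle_extend X (L' := N) hX₀ hq2]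
      exact (ptCycle_congr X AlgEquiv.refl c' hc' hq2 hq2' hsc).symm
    rw [f1, f2] at hmem
    refine ⟨N₁ * Module.finrank L N, Nat.Coprime.mul_left hN₁
      ((Nat.Prime.coprime_iff_not_dvd hl).2 hdvd).symm, ?_⟩
    have h3 := Module.finrank_mul_finrank (coordField K p b.out.1) L N
    have h4 := Module.finrank_mul_finrank (coordField K p b.out.1) M N
    have h5 : (Module.finrank (coordField K p b.out.1) L : ℤ) * Module.finrank L N =
        (Module.finrank (coordField K p b.out.1) M : ℤ) * Module.finrank M N := by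
      exact_mod_cast h3.trans h4.symm
    have h6 := zsmul_mem hmem (Module.finrank (coordField K p b.out.1) M : ℤ)
    convert h6 using 1
    simp only [smul_sub, smul_smul]
    push_cast
    congr 1
    · congr 1
      ring
    · congr 1
      linear_combination (N₁ : ℤ) * h5

/-- A multiple prime to `l` of every zero-cycle of the base is a push-forward. -/
theorem Loc.exists_pushZ {l : ℕ} (hl : l.Prime) (H : Loc l h) (c : ClosedPoint B →₀ ℤ) :
    ∃ m : ℕ, m.Coprime l ∧ ∃ z : ClosedPoint X →₀ ℤ, pushZ h z = (m : ℤ) • c := by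
  induction c using Finsupp.induction_linear with
  | zero => exact ⟨1, Nat.coprime_one_left l, 0, by simp⟩
  | add f g hf hg =>
    obtain ⟨m, hm, z, hz⟩ := hf
    obtain ⟨m', hm', z', hz'⟩ := hg
    refine ⟨m * m', Nat.Coprime.mul_left hm hm', (m' : ℤ) • z + (m : ℤ) • z', ?_⟩
    rw [map_add, map_zsmul, map_zsmul, hz, hz', smul_add, smul_smul, smul_smul, Nat.cast_mul,
      mul_comm (m' : ℤ)]
  | single P a =>
    obtain ⟨m, hm, c, hc, -⟩ := H.exists_sec hl P
    refine ⟨m, hm, a • c, ?_⟩
    have h1 : Finsupp.single P a = a • Finsupp.single P (1 : ℤ) := by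
      rw [Finsupp.smul_single, smul_eq_mul, mul_one]
    rw [map_zsmul, hc, h1, smul_comm]

/-- Cycles with push-forward zero. -/
theorem Loc.ker_cycle {l : ℕ} (hl : l.Prime) (H : Loc l h) (z : ClosedPoint X →₀ ℤ)
    (hz : pushZ h z = 0) : ∃ N : ℕ, N.Coprime l ∧ (N : ℤ) • z ∈ ratEquiv X := by
  choose m hm c hc hsec using fun b => H.exists_sec hl b
  set s : (ClosedPoint B →₀ ℤ) →+ (ClosedPoint X →₀ ℤ) := linExt c with hs
  have hps : ∀ w : ClosedPoint B →₀ ℤ, ∀ b, (pushZ h (s w)) b = m b * w b := by
    intro w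
    induction w using Finsupp.induction_linear with
    | zero => intro b; simp
    | add f g hf hg =>
      intro b
      rw [map_add, map_add, Finsupp.add_apply, hf, hg, Finsupp.add_apply, mul_add]
    | single P a =>
      classical
      intro b
      rw [hs, linExt_single, map_zsmul, hc, smul_smul, Finsupp.smul_single, smul_eq_mul, mul_one,
        Finsupp.single_apply, Finsupp.single_apply]
      by_cases hPb : P = b
      · rw [if_pos hPb, if_pos hPb, hPb, mul_comm]
      · rw [if_neg hPb, if_neg hPb, mul_zero]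
  have key : ∀ z : ClosedPoint X →₀ ℤ, ∃ N : ℕ, N.Coprime l ∧ ∃ w : ClosedPoint B →₀ ℤ,
      (N : ℤ) • z - s w ∈ ratEquiv X ∧ (N : ℤ) • pushZ h z = pushZ h (s w) := by
    intro z
    induction z using Finsupp.induction_linear with
    | zero => exact ⟨1, Nat.coprime_one_left l, 0, by simp, by simp⟩
    | add f g hf hg =>
      obtain ⟨N, hN, w, h1, h2⟩ := hf
      obtain ⟨N', hN', w', h1', h2'⟩ := hg
      refine ⟨N * N', Nat.Coprime.mul_left hN hN', (N' : ℤ) • w + (N : ℤ) • w', ?_, ?_⟩
      · have h3 := add_mem (zsmul_mem h1 (N' : ℤ)) (zsmul_mem h1' (N : ℤ))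
        convert h3 using 1
        rw [map_add, map_zsmul, map_zsmul]
        simp only [smul_sub, smul_add, smul_smul]
        push_cast
        rw [mul_comm (N' : ℤ) (N : ℤ)]
        abel
      · rw [map_add, map_add, map_add, map_zsmul, map_zsmul, map_zsmul, map_zsmul, ← h2, ← h2',
          smul_add, smul_smul, smul_smul]
        push_cast
        rw [mul_comm (N' : ℤ) (N : ℤ)]
    | single P a =>
      have hfd := coordField_finite (p := addBlock n p) P.out.1
      set b := closedPt B (fun v => nrm P.out (Sum.inr v)) (h.isPt (nrm_isPt P.out)) with hb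
      obtain ⟨t, ht, N, hN, hmem⟩ := hsec b (coordField K (addBlock n p) P.out.1)
        (nrm P.out) (nrm_isPt P.out) rfl
      have h1 : Finsupp.single P a = a • ptCycle X (nrm P.out) (nrm_isPt P.out) := by
        rw [single_out P, Finsupp.smul_single, smul_eq_mul, mul_one]
      refine ⟨N * m b, Nat.Coprime.mul_left hN (hm b), ((N : ℤ) * (a * t)) • Finsupp.single b 1,
        ?_, ?_⟩
      · have h2 := zsmul_mem hmem a
        convert h2 using 1
        rw [h1, map_zsmul, hs, linExt_single, one_smul]
        simp only [smul_sub, smul_smul]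
        push_cast
        congr 1
        · congr 1
          ring
        · congr 1
          ring
      · rw [h1, map_zsmul, pushZ_ptCycle, ht, map_zsmul, hs, linExt_single, one_smul, map_zsmul,
          hc]
        simp only [smul_smul]
        congr 1
        push_cast
        ring
  obtain ⟨N, hN, w, h1, h2⟩ := key z
  rw [hz, smul_zero] at h2
  have hw : w = 0 := by
    ext b
    have h3 := hps w b
    rw [← h2, Finsupp.zero_apply] at h3
    rcases mul_eq_zero.1 h3.symm with h4 | h4
    · exfalso
      have h5 : m b = 0 := by exact_mod_cast h4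
      have h6 := hm b
      rw [h5, Nat.coprime_zero_left] at h6
      exact hl.one_lt.ne' h6
    · exact h4
  rw [hw, map_zero, sub_zero] at h1
  exact ⟨N, hN, h1⟩

theorem LiftsAt.ratEquiv {l : ℕ} (H : LiftsAt l h) {x : ClosedPoint B →₀ ℤ}
    (hx : x ∈ ratEquiv B) :
    ∃ m : ℕ, m.Coprime l ∧ ∃ c ∈ ratEquiv X, pushZ h c = (m : ℤ) • x := by
  refine AddSubgroup.closure_induction (p := fun x _ => ∃ m : ℕ, m.Coprime l ∧
    ∃ c ∈ ZF.ratEquiv X, pushZ h c = (m : ℤ) • x) ?_ ?_ ?_ ?_ hx
  · rintro c ⟨E, iF, iA, hE, y, hy, g, hg, rfl⟩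
    obtain ⟨m, hm, c', hc', h1⟩ := H E hE y hy g hg
    exact ⟨m, hm, c', hc', by rw [h1, curveCycle_pow hE B y hy hg]⟩
  · exact ⟨1, Nat.coprime_one_left l, 0, zero_mem _, by simp⟩
  · rintro a b _ _ ⟨m, hm, c, hc, h1⟩ ⟨m', hm', c', hc', h2⟩
    refine ⟨m * m', Nat.Coprime.mul_left hm hm', (m' : ℤ) • c + (m : ℤ) • c',
      add_mem (zsmul_mem hc _) (zsmul_mem hc' _), ?_⟩
    rw [map_add, map_zsmul, map_zsmul, h1, h2, smul_add, smul_smul, smul_smul, Nat.cast_mul,
      mul_comm (m' : ℤ)]
  · rintro a _ ⟨m, hm, c, hc, h1⟩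
    exact ⟨m, hm, -c, neg_mem hc, by rw [map_neg, h1, smul_neg]⟩

/-- **The kernel of the push-forward at the prime `l`.** -/
theorem Loc.ker {l : ℕ} (hl : l.Prime) (H : Loc l h) (c : CH0 X) (hc : CH0.push h c = 0) :
    ∃ N : ℕ, N.Coprime l ∧ N • c = 0 := by
  obtain ⟨C, rfl⟩ := CH0.mk_surjective X c
  rw [CH0.push_mk] at hc
  have h1 : pushZ h C ∈ ratEquiv B := (QuotientAddGroup.eq_zero_iff _).1 hc
  obtain ⟨m, hm, c', hc', h2⟩ := H.lift.ratEquiv h1
  obtain ⟨N, hN, h3⟩ := H.ker_cycle hl ((m : ℤ) • C - c') (by rw [map_sub, map_zsmul, h2, sub_self])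
  refine ⟨N * m, Nat.Coprime.mul_left hN hm, ?_⟩
  have h4 := CH0.mk_eq_zero X h3
  rw [map_zsmul, map_sub, map_zsmul, CH0.mk_eq_zero X hc', sub_zero] at h4
  rw [← natCast_zsmul, Nat.cast_mul, mul_smul]
  exact h4

end

end ZF
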