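import Pool.Agent.Helper72.HY.TowerDef
import Pool.Agent.Helper72.HY.Line
import Pool.Agent.Helper89.IX.TowerOn

/-!
# Families of hypersurfaces and towers, prime by prime
-/

set_option autoImplicit false

open MvPolynomial ZC

namespace ZF

universe u

section

variable {K : Type u} [Field K] {V ι R : Type} {p : V → ι} {n r : ℕ}
  {X : MVar K (addBlock n p) (Fin r ⊕ R)} {B : MVar K p R}

theorem StepAt.bc {l : ℕ} (h : StepAt l X B) (L : Type u) [Field L] [Algebra K L] :
    StepAt l (X.bc L) (B.bc L) :=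
  ⟨h.isOver.bc L, h.cond.imp id fun h => h.imp (fun h => ⟨h.1, h.2.1, h.2.2.1, h.2.2.2.bc L⟩)
    fun h => h.bc L⟩

variable [Finite V]

theorem FamAt.loc {l : ℕ} (hl : l.Prime) (hK : Good K) (h : FamAt (fun l' => l' = l) X B) :
    Loc l h.isOver where
  pt L _ _ _ y hy := by
    obtain ⟨x, hx⟩ := exists_lift h.isOver (q := 2) (hasC_two hK.c2.finite) h.pos h.sq y hy
    refine ⟨L, inferInstance, inferInstance, inferInstance, inferInstance, inferInstance, ?_, x,
      hx⟩
    rw [Module.finrank_self]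
    exact Nat.coprime_one_left l
  eq L _ _ _ x x' y hx hx' := by
    refine ⟨1, Nat.coprime_one_left l, ?_⟩
    rw [Nat.cast_one, one_smul]
    exact fibre_equiv2 hK h.isOver h.pos h.sq x x' y hx hx'
  lift := h.liftsAt hK l hl rfl

theorem StepAt.loc {l : ℕ} (hl : l.Prime) (hK : Good K) (h : StepAt l X B) :
    Loc l h.isOver := by
  obtain ⟨h1, ⟨hr, h2⟩ | ⟨hr, h2, h3, h4⟩ | h2⟩ := h
  · subst hr
    exact loc_of_hyp h1 hl (hK.wtl l hl) (h2 0).1 (h2 0).2
  · subst hr
    exact loc_of_line h1 hl h3 (h2 0) h4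
  · exact h2.loc hl hK

end

section

variable {F k : Type u} [Field F] [Field k] [Algebra F k]

theorem towerFor_exact [Finite F] (hk : IsCurveField F k) {l : ℕ} (hl : l.Prime)
    {V ι R : Type} {p : V → ι} {X : MVar k p R} (hX : TowerFor l X) :
    ∀ [Finite V] (z : LocFam F X), (z.CompatOn fun l' => l' = l) →
      (z.OrthOn fun l' => l' = l) → z.GlobalOn fun l' => l' = l := by
  induction hX with
  | point X =>
    intro _ z hz horth
    have hx : X.IsPt (fun e => e.elim : Empty → k) := ⟨fun j => j.elim, fun i => i.elim⟩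
    exact globalOn_of_gen hk X _ hx (fun v c => point_gen (X.bc v.Completion) _ _ c) z hz horth
  | @step V ι R p n r B X hB h ih =>
    intro hfin z hz horth
    have hV : Finite V := Finite.of_injective (Sum.inr : V → Fin (n + 1) ⊕ V) Sum.inr_injective
    refine transfer_loc h.isOver (fun l' _ hQ => ?_) (fun v l' _ hQ => ?_) z
      (ih _ (hz.push h.isOver) (horth.push h.isOver))
    · subst hQ
      exact h.loc hl hk.good
    · subst hQ
      exact (h.bc v.Completion).loc hl (v.good hk)
  | @renumber V ι R V' ι' R' p p' X X' hX E ih =>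
    intro hfin z hz horth
    have hV : Finite V := Finite.of_equiv V' E.e
    exact LocFam.GlobalOn.of_re E.symm (ih _ (hz.re E.symm) (horth.re E.symm))

/-- **Towers, prime by prime.** -/
theorem towerFor_main [Finite F] (hk : IsCurveField F k) {V ι R : Type} [Finite V] {p : V → ι}
    (X : MVar k p R) (Q : ℕ → Prop) (h : ∀ l : ℕ, l.Prime → Q l → TowerFor l X)
    (z : LocFam F X) (hz : z.CompatOn Q) : z.GlobalOn Q ↔ z.OrthOn Q := by
  refine ⟨fun hg => hg.orth hk, fun ho => globalOn_of_primes z hz fun l hl hQ => ?_⟩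
  exact towerFor_exact hk hl (h l hl hQ) z
    (hz.mono fun l' _ hl' => by rw [hl']; exact hQ) (ho.mono fun l' _ hl' => by rw [hl']; exact hQ)

/-- **Families, prime by prime.** -/
theorem stepAt_main [Finite F] (hk : IsCurveField F k) {V ι R : Type} [Finite V] {p : V → ι}
    {n r : ℕ} (B : MVar k p R) (X : MVar k (addBlock n p) (Fin r ⊕ R)) (h : X.IsOver B)
    (Q : ℕ → Prop) (hs : ∀ l : ℕ, l.Prime → Q l → StepAt l X B) :
    ModIso Q h ∧ (∀ v : Place F k, ModIso Q (h.bc v.Completion)) ∧
    (∀ z : LocFam F X, z.GlobalOn Q ↔ (z.push h).GlobalOn Q) ∧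
    ((∀ l : ℕ, l.Prime → Q l) →
      PushIso h ∧ ∀ v : Place F k, PushIso (h.bc v.Completion)) := by
  have H : ∀ l : ℕ, l.Prime → Q l → Loc l h := fun l hl hQ => (hs l hl hQ).loc hl hk.good
  have Hv : ∀ (v : Place F k) (l : ℕ), l.Prime → Q l → Loc l (h.bc v.Completion) :=
    fun v l hl hQ => ((hs l hl hQ).bc v.Completion).loc hl (v.good hk)
  exact ⟨modIso_of_loc H, fun v => modIso_of_loc (Hv v), transfer_loc_iff h H Hv,
    fun hQ => ⟨pushIso_of_loc fun l hl => H l hl (hQ l hl),
      fun v => pushIso_of_loc fun l hl => Hv v l hl (hQ l hl)⟩⟩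

end

end ZF
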