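import Pool.Agent.Helper72.HY.Loc
import Pool.Agent.Helper89.IX.TowerDef

/-!
# Transfer along families which are good at the primes of a set
-/

set_option autoImplicit false

open MvPolynomial ZC

namespace ZF

universe u

/-- A subgroup of the integers which contains for each prime `l` an integer prime to `l` is
everything. -/
theorem one_mem_of_primes (I : AddSubgroup ℤ)
    (H : ∀ l : ℕ, l.Prime → ∃ N : ℤ, N ∈ I ∧ ¬ (l : ℤ) ∣ N) : (1 : ℤ) ∈ I := by
  obtain ⟨d, hd⟩ := Int.subgroup_cyclic I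
  rw [← AddSubgroup.zmultiples_eq_closure] at hd
  have hunit : d.natAbs = 1 := by
    by_contra hne
    obtain ⟨l, hl, hld⟩ := Nat.exists_prime_and_dvd hne
    obtain ⟨N, hN, hlN⟩ := H l hl
    rw [hd, Int.mem_zmultiples_iff] at hN
    exact hlN ((Int.natCast_dvd.2 hld).trans hN)
  rw [hd, Int.mem_zmultiples_iff]
  exact Int.natAbs_dvd.1 (by rw [hunit]; exact one_dvd _)

theorem not_dvd_of_coprime {l N : ℕ} (hl : l.Prime) (h : N.Coprime l) : ¬ (l : ℤ) ∣ (N : ℤ) := by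
  rw [Int.natCast_dvd_natCast]
  exact (Nat.Prime.coprime_iff_not_dvd hl).1 h.symm

/-- The version for the primes which divide `m`. -/
theorem one_mem_of_dvd (I : AddSubgroup ℤ) {m : ℕ} (hm : (m : ℤ) ∈ I)
    (H : ∀ l : ℕ, l.Prime → l ∣ m → ∃ N : ℕ, N.Coprime l ∧ (N : ℤ) ∈ I) : (1 : ℤ) ∈ I := by
  refine one_mem_of_primes I fun l hl => ?_
  by_cases hlm : l ∣ m
  · obtain ⟨N, hN, hNI⟩ := H l hl hlm
    exact ⟨N, hNI, not_dvd_of_coprime hl hN⟩
  · exact ⟨m, hm, fun h => hlm (Int.natCast_dvd_natCast.1 h)⟩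

section

variable {K : Type u} [Field K] {V ι R : Type} [Finite V] {p : V → ι} {n r : ℕ}
  {X : MVar K (addBlock n p) (Fin r ⊕ R)} {B : MVar K p R} {h : X.IsOver B}

/-- The push-forward from `X` to `B` is bijective modulo every positive integer all of whose prime
factors satisfy `Q`. -/
def ModIso (Q : ℕ → Prop) (h : X.IsOver B) : Prop :=
  ∀ m : ℕ, 0 < m → Adm Q m → (∀ b : CH0 B, ∃ c : CH0 X, SameMod m (pushCl h c) b) ∧
    ∀ c c' : CH0 X, SameMod m (pushCl h c) (pushCl h c') → SameMod m c c'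

/-- Every zero-cycle of the base is a push-forward modulo `m`. -/
theorem exists_pushZ_mod {m : ℕ} (H : ∀ l : ℕ, l.Prime → l ∣ m → Loc l h)
    (c : ClosedPoint B →₀ ℤ) : ∃ (z : ClosedPoint X →₀ ℤ) (g : ClosedPoint B →₀ ℤ),
      pushZ h z = c + (m : ℤ) • g := by
  let T : AddSubgroup (ClosedPoint B →₀ ℤ) := (pushZ h).range ⊔
    (zsmulAddGroupHom (m : ℤ) : (ClosedPoint B →₀ ℤ) →+ (ClosedPoint B →₀ ℤ)).range
  have h1 : (1 : ℤ) ∈ T.comap (zmultiplesHom (ClosedPoint B →₀ ℤ) c) := by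
    refine one_mem_of_dvd _ (m := m) ?_ fun l hl hlm => ?_
    · exact AddSubgroup.mem_sup_right ⟨c, rfl⟩
    · obtain ⟨N, hN, z, hz⟩ := (H l hl hlm).exists_pushZ hl c
      exact ⟨N, hN, AddSubgroup.mem_sup_left ⟨z, hz⟩⟩
  have h2 : c ∈ T := by
    have h3 : (1 : ℤ) • c ∈ T := h1
    rwa [one_smul] at h3
  obtain ⟨_, ⟨z, rfl⟩, _, ⟨g, rfl⟩, h3⟩ := AddSubgroup.mem_sup.1 h2
  refine ⟨z, -g, ?_⟩
  rw [← h3]
  change _ = pushZ h z + (m : ℤ) • g + (m : ℤ) • (-g)
  rw [smul_neg]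
  abel

/-- The push-forward is injective modulo `m`. -/
theorem push_mod_loc {m : ℕ} (H : ∀ l : ℕ, l.Prime → l ∣ m → Loc l h) (c : CH0 X)
    (hc : ∃ b, CH0.push h c = m • b) : ∃ c', c = m • c' := by
  obtain ⟨b, hb⟩ := hc
  let T : AddSubgroup (CH0 X) := (nsmulAddMonoidHom m : CH0 X →+ CH0 X).range
  have h1 : (1 : ℤ) ∈ T.comap (zmultiplesHom (CH0 X) c) := by
    refine one_mem_of_dvd _ (m := m) ?_ fun l hl hlm => ?_
    · exact ⟨c, by
        change m • c = (m : ℤ) • c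
        rw [natCast_zsmul]⟩
    · obtain ⟨C, rfl⟩ := CH0.mk_surjective B b
      obtain ⟨M, hM, z, hz⟩ := (H l hl hlm).exists_pushZ hl C
      obtain ⟨N, hN, h2⟩ := (H l hl hlm).ker hl (M • c - m • CH0.mk X z) (by
        rw [map_sub, map_nsmul, map_nsmul, hb, CH0.push_mk, hz, map_zsmul, natCast_zsmul,
          smul_comm, sub_self])
      refine ⟨N * M, Nat.Coprime.mul_left hN hM, N • CH0.mk X z, ?_⟩
      change m • N • CH0.mk X z = ((N * M : ℕ) : ℤ) • c
      rw [natCast_zsmul, mul_smul]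
      rw [smul_sub, sub_eq_zero] at h2
      rw [h2, smul_comm]
  obtain ⟨c', hc'⟩ := h1
  exact ⟨c', by
    change m • c' = (1 : ℤ) • c at hc'
    rw [hc', one_smul]⟩

theorem sameMod_push_loc {m : ℕ} (H : ∀ l : ℕ, l.Prime → l ∣ m → Loc l h) {a b : CH0 X}
    (hab : SameMod m (CH0.push h a) (CH0.push h b)) : SameMod m a b := by
  obtain ⟨g, hg⟩ := hab
  exact push_mod_loc H (a - b) ⟨g, by rw [map_sub, hg]⟩

theorem modIso_of_loc {Q : ℕ → Prop} (H : ∀ l : ℕ, l.Prime → Q l → Loc l h) : ModIso Q h := by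
  intro m hm hQ
  have H' : ∀ l : ℕ, l.Prime → l ∣ m → Loc l h := fun l hl hlm => H l hl (hQ l hl hlm)
  refine ⟨fun b => ?_, fun c c' hcc => sameMod_push_loc H' hcc⟩
  obtain ⟨C, rfl⟩ := CH0.mk_surjective B b
  obtain ⟨z, g, hz⟩ := exists_pushZ_mod H' C
  refine ⟨CH0.mk X z, CH0.mk B g, ?_⟩
  rw [pushCl, CH0.push_mk, hz, map_add, map_zsmul, natCast_zsmul, add_sub_cancel_left]

/-- If the family is good at all primes the push-forward is an isomorphism. -/
theorem pushIso_of_loc (H : ∀ l : ℕ, l.Prime → Loc l h) : PushIso h := by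
  refine ⟨?_, ?_⟩
  · rw [injective_iff_map_eq_zero]
    intro c hc
    have h1 : addOrderOf c = 1 := by
      by_contra hne
      obtain ⟨l, hl, hlc⟩ := Nat.exists_prime_and_dvd hne
      obtain ⟨m, hm, h2⟩ := (H l hl).ker hl c hc
      have h3 : l ∣ m := hlc.trans (addOrderOf_dvd_of_nsmul_eq_zero h2)
      exact (Nat.Prime.coprime_iff_not_dvd hl).1 hm.symm h3
    exact AddMonoid.addOrderOf_eq_one_iff.1 h1
  · intro b
    obtain ⟨C, rfl⟩ := CH0.mk_surjective B b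
    have h1 : (1 : ℤ) ∈ (CH0.push h).range.comap (zmultiplesHom (CH0 B) (CH0.mk B C)) := by
      refine one_mem_of_primes _ fun l hl => ?_
      obtain ⟨M, hM, z, hz⟩ := (H l hl).exists_pushZ hl C
      refine ⟨M, ⟨CH0.mk X z, ?_⟩, not_dvd_of_coprime hl hM⟩
      rw [CH0.push_mk, hz, map_zsmul]
      rfl
    obtain ⟨c, hc⟩ := h1
    refine ⟨c, ?_⟩
    change CH0.push h c = (1 : ℤ) • CH0.mk B C at hc
    rwa [one_smul] at hc

end

section transfer

variable {F k : Type u} [Field F] [Field k] [Algebra F k] {V ι R : Type} [Finite V] {p : V → ι}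
  {n r : ℕ} {X : MVar k (addBlock n p) (Fin r ⊕ R)} {B : MVar k p R}

/-- Families with global push-forward are global. -/
theorem transfer_loc (h : X.IsOver B) {Q : ℕ → Prop}
    (H : ∀ l : ℕ, l.Prime → Q l → Loc l h)
    (Hv : ∀ (v : Place F k) (l : ℕ), l.Prime → Q l → Loc l (h.bc v.Completion))
    (z : LocFam F X) (hz : (z.push h).GlobalOn Q) : z.GlobalOn Q := by
  classical
  obtain ⟨W, hW, hWz⟩ := hz
  have key : ∀ m : ℕ, Adm Q m → ∃ (Z : ClosedPoint X →₀ ℤ) (g : ClosedPoint B →₀ ℤ),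
      pushZ h Z = W m + (m : ℤ) • g := fun m hm =>
    exists_pushZ_mod (fun l hl hlm => H l hl (hm l hl hlm)) (W m)
  let Z : ℕ → ClosedPoint X →₀ ℤ := fun m => if hm : Adm Q m then (key m hm).choose else 0
  have hZ : ∀ m : ℕ, Adm Q m → ∃ g : ClosedPoint B →₀ ℤ, pushZ h (Z m) = W m + (m : ℤ) • g := by
    intro m hm
    have : Z m = (key m hm).choose := dif_pos hm
    rw [this]
    exact (key m hm).choose_spec
  refine ⟨Z, ?_, fun v m hm hQ => ?_⟩
  · intro m m' hm hm' hmm hQ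
    refine sameMod_push_loc (h := h) (fun l hl hlm => H l hl (hQ l hl (hlm.trans hmm))) ?_
    obtain ⟨g, hg⟩ := hZ m (hQ.of_dvd hmm)
    obtain ⟨g', hg'⟩ := hZ m' hQ
    obtain ⟨a, ha⟩ := hW m m' hm hm' hmm hQ
    obtain ⟨q, rfl⟩ := hmm
    refine ⟨a + (q : ℤ) • CH0.mk B g' - CH0.mk B g, ?_⟩
    rw [CH0.push_mk, CH0.push_mk, hg, hg', map_add, map_add, map_zsmul, map_zsmul, smul_sub,
      smul_add, ← ha, ← natCast_zsmul, ← natCast_zsmul, smul_smul, Nat.cast_mul]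
    abel
  · refine sameMod_push_loc (h := h.bc v.Completion)
      (fun l hl hlm => Hv v l hl (hQ l hl hlm)) ?_
    obtain ⟨g, hg⟩ := hZ m hQ
    obtain ⟨a, ha⟩ := hWz v m hm hQ
    refine ⟨a + CH0.mk (B.bc v.Completion) (bcZ B v.Completion g), ?_⟩
    rw [bcCl, CH0.push_mk, ← bcZ_pushZ h, hg, map_add, map_add, map_zsmul, map_zsmul, natCast_zsmul,
      smul_add, ← ha, bcCl]
    change _ = _ - CH0.push (h.bc v.Completion) (z v m) + _
    abel

theorem transfer_loc_iff (h : X.IsOver B) {Q : ℕ → Prop}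
    (H : ∀ l : ℕ, l.Prime → Q l → Loc l h)
    (Hv : ∀ (v : Place F k) (l : ℕ), l.Prime → Q l → Loc l (h.bc v.Completion))
    (z : LocFam F X) : z.GlobalOn Q ↔ (z.push h).GlobalOn Q :=
  ⟨fun hz => hz.push h, transfer_loc h H Hv z⟩

end transfer

end ZF
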