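import Pool.Agent.Helper72.HY.Main

/-!
# Varieties with one projection for each prime
-/

set_option autoImplicit false

open MvPolynomial ZC

namespace ZF

universe u

/-- The push-forward from `X` to `B` is an isomorphism on Chow groups of zero-cycles after
localization at the prime `l`. -/
def LocIso {K : Type u} [Field K] {V ι R : Type} [Finite V] {p : V → ι} {n r : ℕ}
    {X : MVar K (addBlock n p) (Fin r ⊕ R)} {B : MVar K p R} (l : ℕ) (h : X.IsOver B) : Prop :=
  (∀ b : CH0 B, ∃ N : ℕ, N.Coprime l ∧ ∃ c : CH0 X, pushCl h c = N • b) ∧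
    ∀ c : CH0 X, pushCl h c = 0 → ∃ N : ℕ, N.Coprime l ∧ N • c = 0

/-- A presentation at the prime `l` of the variety `X`, up to a renumbering of the variables, the
projective spaces and the forms, as a family `fam` over a variety `base`. -/
structure PresAt (l : ℕ) {K : Type u} [Field K] {V ι R : Type} {p : V → ι} (X : MVar K p R) where
  /-- the variables of the base -/
  bV : Type
  /-- the projective spaces of the base -/
  bι : Type
  /-- the forms of the base -/
  bR : Type
  /-- the projective space of each variable of the base -/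
  bp : bV → bι
  finite : Finite bV
  /-- the dimension of the ambient projective space of the fibres -/
  n : ℕ
  /-- the number of forms which define the fibres -/
  r : ℕ
  /-- the base -/
  base : MVar K bp bR
  /-- the family -/
  fam : MVar K (addBlock n bp) (Fin r ⊕ bR)
  step : StepAt l fam base
  /-- the renumbering -/
  re : Reindex X fam

attribute [instance] PresAt.finite

section

variable {F k : Type u} [Field F] [Field k] [Algebra F k]

/-- The image of a family of classes on the base of a presentation. -/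
noncomputable def PresAt.image {l : ℕ} {V ι R : Type} [Finite V] {p : V → ι} {X : MVar k p R}
    (P : PresAt l X) (z : LocFam F X) : LocFam F P.base :=
  (z.re P.re).push P.step.isOver

section

variable {V ι R V' ι' R' : Type} [Finite V]
  [Finite V'] {p : V → ι} {p' : V' → ι'} {X : MVar k p R} {X' : MVar k p' R'}

/-- If the family on `X` is global so is the family on `X'`. -/
theorem LocFam.GlobalOn.re (E : Reindex X X') {Q : ℕ → Prop} {z : LocFam F X}
    (hz : z.GlobalOn Q) : (z.re E).GlobalOn Q := by
  obtain ⟨Z, hZ, hZz⟩ := hz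
  refine ⟨fun m => E.Z (Z m), fun m m' hm hm' hmm hQ => ?_, fun v m hm hQ => ?_⟩
  · exact (hZ m m' hm hm' hmm hQ).map E.ch
  · have h1 := (hZz v m hm hQ).map (E.bc v.Completion).ch
    have h2 : (E.bc v.Completion).ch (bcCl X v.Completion (Z m)) =
        bcCl X' v.Completion (E.Z (Z m)) := by
      rw [bcCl, bcCl, Reindex.ch_mk, ← E.Z_bcZ]
    rwa [h2] at h1

end

theorem LocFam.GlobalOn.mono {V ι R : Type} [Finite V] {p : V → ι} {X : MVar k p R}
    {Q Q' : ℕ → Prop} (hQ : ∀ l : ℕ, l.Prime → Q l → Q' l) {z : LocFam F X}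
    (hz : z.GlobalOn Q') : z.GlobalOn Q := by
  obtain ⟨Z, hZ, hZz⟩ := hz
  exact ⟨Z, fun m m' hm hm' hmm hA => hZ m m' hm hm' hmm fun l hl hlm => hQ l hl (hA l hl hlm),
    fun v m hm hA => hZz v m hm fun l hl hlm => hQ l hl (hA l hl hlm)⟩

theorem locIso_of_loc {K : Type u} [Field K] {V ι R : Type} [Finite V] {p : V → ι} {n r : ℕ}
    {X : MVar K (addBlock n p) (Fin r ⊕ R)} {B : MVar K p R} {l : ℕ} (hl : l.Prime)
    {h : X.IsOver B} (H : Loc l h) : LocIso l h := by
  refine ⟨fun b => ?_, fun c hc => H.ker hl c hc⟩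
  obtain ⟨C, rfl⟩ := CH0.mk_surjective B b
  obtain ⟨m, hm, z, hz⟩ := H.exists_pushZ hl C
  exact ⟨m, hm, CH0.mk X z, by rw [pushCl, CH0.push_mk, hz, map_zsmul, natCast_zsmul]⟩

/-- **Families and towers of hypersurfaces, with one projection for each prime.** -/
theorem presAt_main [Finite F] (hk : IsCurveField F k) {V ι R : Type} [Finite V] {p : V → ι}
    (X : MVar k p R) (Q : ℕ → Prop) (P : ∀ l : ℕ, l.Prime → Q l → PresAt l X) :
    (∀ (l : ℕ) (hl : l.Prime) (hQ : Q l), LocIso l (P l hl hQ).step.isOver ∧
      ∀ v : Place F k, LocIso l ((P l hl hQ).step.isOver.bc v.Completion)) ∧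
    ∀ z : LocFam F X, z.CompatOn Q →
      (z.GlobalOn Q ↔ ∀ (l : ℕ) (hl : l.Prime) (hQ : Q l),
        ((P l hl hQ).image z).GlobalOn fun l' => l' = l) ∧
      ((∀ (l : ℕ) (hl : l.Prime) (hQ : Q l), TowerFor l (P l hl hQ).base) →
        (z.GlobalOn Q ↔ z.OrthOn Q)) := by
  refine ⟨fun l hl hQ => ⟨locIso_of_loc hl ((P l hl hQ).step.loc hl hk.good),
    fun v => locIso_of_loc hl (((P l hl hQ).step.bc v.Completion).loc hl (v.good hk))⟩,
    fun z hz => ⟨⟨fun h l hl hQ => ?_, fun h => ?_⟩, fun hT => ?_⟩⟩
  · exact ((h.mono fun l' _ hl' => by rw [hl']; exact hQ).re (P l hl hQ).re).push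
      (P l hl hQ).step.isOver
  · refine globalOn_of_primes z hz fun l hl hQ => ?_
    refine LocFam.GlobalOn.of_re (P l hl hQ).re ?_
    refine transfer_loc (P l hl hQ).step.isOver (fun l' _ h' => ?_) (fun v l' _ h' => ?_) _
      (h l hl hQ)
    · subst h'
      exact (P l' hl hQ).step.loc hl hk.good
    · subst h'
      exact ((P l' hl hQ).step.bc v.Completion).loc hl (v.good hk)
  · exact towerFor_main hk X Q (fun l hl hQ =>
      TowerFor.renumber (TowerFor.step (hT l hl hQ) (P l hl hQ).step) (P l hl hQ).re.symm) z hz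

end

end ZF
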