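import Pool.Agent.Helper72.HY.TowerDef

/-!
# Hypersurfaces in products of projective spaces
-/

set_option autoImplicit false

open MvPolynomial ZC

namespace ZF

universe u

/-- The condition at the prime `l` on the degree `d` of a form in `n + 1` variables. -/
def DegAt (l n d : ℕ) : Prop :=
  (¬ l ∣ d ∧ flexCost l d < n) ∨ (0 < d ∧ d ^ 2 ≤ n ∧ LiftAt l n fun _ : Fin 1 => d)

section

variable {K : Type u} [Field K]

/-- The variety without equations. -/
noncomputable def MVar.noForms (K : Type u) [Field K] {V ι : Type} (p : V → ι) (R : Type)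
    [IsEmpty R] : MVar K p R where
  form i := isEmptyElim i
  deg i := isEmptyElim i
  hom i := isEmptyElim i

/-- Renumbering of the variables, the projective spaces and the forms. -/
noncomputable def MVar.renum {V ι R V' ι' R' : Type} {p : V → ι} {p' : V' → ι'}
    (X : MVar K p R) (e : V ≃ V') (f : ι ≃ ι') (g : R' ≃ R) (hp : ∀ v, p' (e v) = f (p v)) :
    MVar K p' R' where
  form i := rename e (X.form (g i))
  deg i := (X.deg (g i)).mapDomain f
  hom i m hm := by
    classical
    rw [support_rename_of_injective e.injective, Finset.mem_image] at hm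
    obtain ⟨w, hw, rfl⟩ := hm
    rw [← X.hom (g i) w hw, ← Finsupp.mapDomain_comp, ← Finsupp.mapDomain_comp]
    congr 1
    funext v
    exact hp v

/-- The renumbered variety. -/
noncomputable def MVar.renumReindex {V ι R V' ι' R' : Type} {p : V → ι} {p' : V' → ι'}
    (X : MVar K p R) (e : V ≃ V') (f : ι ≃ ι') (g : R' ≃ R) (hp : ∀ v, p' (e v) = f (p v)) :
    Reindex (X.renum e f g hp) X where
  e := e
  f := f
  g := g.symm
  hp := hp
  hform i := by
    change rename e (X.form (g (g.symm i))) = rename e (X.form i)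
    rw [g.apply_symm_apply]

/-- The variables of a product of projective spaces, with one factor taken apart. -/
noncomputable def splitVar {ι : Type} (n : ι → ℕ) {κ : Type} (f : ι ≃ Option κ) :
    (Σ i : ι, Fin (n i + 1)) ≃
      Fin (n (f.symm none) + 1) ⊕ Σ j : κ, Fin (n (f.symm (some j)) + 1) :=
  (Equiv.ofBijective
    (Sum.elim (fun a => ⟨f.symm none, a⟩) (fun v => ⟨f.symm (some v.1), v.2⟩) :
      Fin (n (f.symm none) + 1) ⊕ (Σ j : κ, Fin (n (f.symm (some j)) + 1)) →
        Σ i : ι, Fin (n i + 1)) (by
    constructor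
    · rintro (a | ⟨j, a⟩) (b | ⟨j', b⟩) h
      · simp only [Sum.elim_inl, Sigma.mk.injEq, heq_eq_eq, true_and] at h
        rw [h]
      · simp only [Sum.elim_inl, Sum.elim_inr, Sigma.mk.injEq] at h
        have := f.symm.injective h.1
        simp at this
      · simp only [Sum.elim_inl, Sum.elim_inr, Sigma.mk.injEq] at h
        have := f.symm.injective h.1
        simp at this
      · simp only [Sum.elim_inr, Sigma.mk.injEq] at h
        have h1 : j = j' := Option.some_injective _ (f.symm.injective h.1)
        subst h1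
        have h2 := eq_of_heq h.2
        subst h2
        rfl
    · rintro ⟨i, a⟩
      obtain ⟨o, rfl⟩ := f.symm.surjective i
      rcases o with _ | j
      · exact ⟨Sum.inl a, rfl⟩
      · exact ⟨Sum.inr ⟨j, a⟩, rfl⟩)).symm

theorem splitVar_block {ι : Type} (n : ι → ℕ) {κ : Type} (f : ι ≃ Option κ)
    (v : Σ i : ι, Fin (n i + 1)) :
    addBlock (n (f.symm none)) (Sigma.fst : (Σ j : κ, Fin (n (f.symm (some j)) + 1)) → κ)
      (splitVar n f v) = f v.1 := by
  obtain ⟨w, rfl⟩ := (splitVar n f).symm.surjective v
  rw [Equiv.apply_symm_apply]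
  rcases w with a | ⟨j, a⟩
  · exact (f.apply_symm_apply none).symm
  · exact (f.apply_symm_apply (some j)).symm

/-- Products of projective spaces are towers. -/
theorem towerFor_product (l : ℕ) (ι : Type) [Finite ι] : ∀ (n : ι → ℕ)
    (X : MVar K (Sigma.fst : (Σ i : ι, Fin (n i + 1)) → ι) Empty), TowerFor l X := by
  induction ι using Finite.induction_empty_option with
  | @of_equiv α β e ih =>
    intro n X
    let W : MVar K (Sigma.fst : (Σ a : α, Fin (n (e a) + 1)) → α) Empty := MVar.noForms K _ _
    have hW : TowerFor l W := ih (fun a => n (e a)) W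
    let E : (Σ a : α, Fin (n (e a) + 1)) ≃ Σ b : β, Fin (n b + 1) :=
      Equiv.sigmaCongrLeft (β := fun b => Fin (n b + 1)) e
    refine TowerFor.renumber hW
      { e := E.symm
        f := e.symm
        g := Equiv.refl _
        hp := fun v => ?_
        hform := fun i => i.elim }
    obtain ⟨w, rfl⟩ := E.surjective v
    rw [E.symm_apply_apply]
    exact (e.symm_apply_apply w.1).symm
  | h_empty =>
    intro n X
    have hE : IsEmpty (Σ i : PEmpty, Fin (n i + 1)) := ⟨fun v => v.1.elim⟩
    exact TowerFor.renumber (TowerFor.point (MVar.noForms K id Empty))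
      { e := Equiv.equivOfIsEmpty _ _
        f := Equiv.equivOfIsEmpty _ _
        g := Equiv.refl _
        hp := fun v => isEmptyElim v
        hform := fun i => i.elim }
  | @h_option α hα ih =>
    intro n X
    let B : MVar K (Sigma.fst : (Σ i : α, Fin (n (some i) + 1)) → α) Empty := MVar.noForms K _ _
    let W : MVar K (addBlock (n none)
        (Sigma.fst : (Σ i : α, Fin (n (some i) + 1)) → α)) (Fin 0 ⊕ Empty) :=
      MVar.noForms K _ _
    have hB : TowerFor l B := ih (fun i => n (some i)) B
    have hW : TowerFor l W := by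
      refine TowerFor.step hB ⟨fun i => i.elim, Or.inr (Or.inr ⟨fun i => i.elim, fun i => i.elim0,
        ?_, Or.inl fun l' _ _ => Or.inl ?_⟩)⟩
      · simp
      · simp
    refine TowerFor.renumber hW
      { e := splitVar n (Equiv.refl (Option α))
        f := Equiv.refl _
        g := Equiv.equivOfIsEmpty _ _
        hp := fun v => splitVar_block n (Equiv.refl (Option α)) v
        hform := fun i => i.elim }

/-- **Hypersurfaces in products of projective spaces.** -/
theorem towerFor_hypersurface {l : ℕ} {ι : Type} [Finite ι] (n : ι → ℕ)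
    (X : MVar K (Sigma.fst : (Σ i : ι, Fin (n i + 1)) → ι) (Fin 1)) (i₀ : ι)
    (h : DegAt l (n i₀) (X.deg 0 i₀)) : TowerFor l X := by
  classical
  let f : ι ≃ Option {i : ι // i ≠ i₀} := (Equiv.optionSubtypeNe i₀).symm
  have hf : f.symm none = i₀ := by simp [f]
  let B : MVar K (Sigma.fst : (Σ j : {i : ι // i ≠ i₀}, Fin (n (f.symm (some j)) + 1)) →
    {i : ι // i ≠ i₀}) Empty := MVar.noForms K _ _
  have hB : TowerFor l B := towerFor_product l _ _ B
  let g : Fin 1 ⊕ Empty ≃ Fin 1 := Equiv.sumEmpty _ _
  let W := X.renum (splitVar n f) f g (splitVar_block n f)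
  have hdeg : ∀ i : Fin 1, W.deg (Sum.inl i) none = X.deg 0 i₀ := by
    intro i
    change ((X.deg (g (Sum.inl i))).mapDomain f) none = _
    rw [Subsingleton.elim (g (Sum.inl i)) 0]
    have h1 : f i₀ = none := ((Equiv.symm_apply_eq f).1 hf).symm
    rw [← h1, Finsupp.mapDomain_apply f.injective]
  have hW : TowerFor l W := by
    refine TowerFor.step hB ⟨fun i => i.elim, ?_⟩
    rcases h with ⟨h1, h2⟩ | ⟨h1, h2, h3⟩
    · refine Or.inl ⟨rfl, fun i => ?_⟩
      rw [hdeg i, hf]
      exact ⟨h1, h2⟩
    · refine Or.inr (Or.inr ⟨fun i => i.elim, fun i => ?_, ?_, Or.inl fun l' _ hl' => ?_⟩)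
      · rw [hdeg i]
        exact h1
      · rw [Fin.sum_univ_one, hdeg 0, hf]
        exact h2
      · subst hl'
        have h4 : (fun i : Fin 1 => W.deg (Sum.inl i) none) = fun _ => X.deg 0 i₀ :=
          funext hdeg
        rw [h4, hf]
        exact h3
  exact TowerFor.renumber hW (X.renumReindex (splitVar n f) f g (splitVar_block n f))

end

end ZF
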